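import Mathlib
import Pool.Agent.Helper969.HW.F3
set_option autoImplicit false

/-! The Fejer kernel against a measure. -/

namespace Pool.Agent.Helper969.EX

open MeasureTheory Measure Set Metric Complex Filter
open Pool.Agent.H390R2 (fejer fejer_nonneg continuous_fejer)
open Pool.Agent.Helper969.HW (fm fm_eq fejer_lint jensen)
open scoped ENNReal ComplexConjugate Topology

noncomputable abbrev hm : Measure UnitAddCircle := AddCircle.haarAddCircle

theorem rep (x : UnitAddCircle) : ∃ y : ℝ, (y : UnitAddCircle) = x ∧ ‖x‖ = |y| ∧ |y| ≤ 1 / 2 := by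
  obtain ⟨a, rfl⟩ := QuotientAddGroup.mk_surjective x
  refine ⟨a - round a, ?_, ?_, abs_sub_round a⟩
  · have h1 : ((round a : ℝ) : UnitAddCircle) = 0 := by
      rw [AddCircle.coe_eq_zero_iff]
      exact ⟨round a, by simp⟩
    rw [AddCircle.coe_sub, h1, sub_zero]
  · exact UnitAddCircle.norm_eq

theorem one_sub_ge (x : UnitAddCircle) : 4 * ‖x‖ ≤ ‖(fourier 1 x : ℂ) - 1‖ := by
  obtain ⟨y, rfl, hy1, hy2⟩ := rep x
  rw [hy1, fourier_coe_apply]
  have e : (2 * Real.pi * I * (1 : ℤ) * (y : ℝ) / (1 : ℝ) : ℂ) = I * ((2 * Real.pi * y : ℝ) : ℂ) := by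
    push_cast
    ring
  rw [e, Complex.norm_exp_I_mul_ofReal_sub_one, Real.norm_eq_abs, abs_mul, abs_of_pos (by norm_num : (0:ℝ) < 2)]
  have e2 : 2 * Real.pi * y / 2 = Real.pi * y := by ring
  rw [e2]
  have h1 : |Real.sin (Real.pi * y)| = Real.sin (Real.pi * |y|) := by
    rcases le_total 0 y with h | h
    · rw [abs_of_nonneg h, abs_of_nonneg]
      apply Real.sin_nonneg_of_nonneg_of_le_pi (by positivity)
      rw [abs_of_nonneg h] at hy2
      nlinarith [Real.pi_pos]
    · rw [abs_of_nonpos h] at hy2 ⊢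
      rw [mul_neg, Real.sin_neg, abs_of_nonpos]
      have h2 : 0 ≤ Real.sin (Real.pi * (-y)) := by
        apply Real.sin_nonneg_of_nonneg_of_le_pi
        · have := Real.pi_pos
          have h3 : 0 ≤ -y := by linarith
          positivity
        · nlinarith [Real.pi_pos]
      rw [mul_neg, Real.sin_neg] at h2
      linarith
  rw [h1]
  have h2 := Real.mul_le_sin (x := Real.pi * |y|) (by positivity) (by nlinarith [Real.pi_pos])
  have h3 : 2 / Real.pi * (Real.pi * |y|) = 2 * |y| := by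
    have := Real.pi_pos.ne'
    field_simp
  rw [h3] at h2
  linarith

theorem fejer_le_D (D : ℕ) (x : UnitAddCircle) : fejer D x ≤ D := by
  unfold fejer
  rcases Nat.eq_zero_or_pos D with h | h
  · subst h; simp
  have hD : (0 : ℝ) < D := by exact_mod_cast h
  rw [div_le_iff₀ hD, ← sq]
  have h1 : ‖∑ j ∈ Finset.range D, (fourier (j : ℤ) x : ℂ)‖ ≤ D := by
    refine (norm_sum_le _ _).trans ?_
    have : ∀ j ∈ Finset.range D, ‖(fourier (j : ℤ) x : ℂ)‖ ≤ 1 := by
      intro j _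
      rw [fourier_apply]
      exact (Circle.norm_coe _).le
    refine (Finset.sum_le_sum this).trans ?_
    simp
  gcongr

theorem fejer_le_inv {D : ℕ} (hD : 0 < D) (x : UnitAddCircle) :
    fejer D x * (4 * D * ‖x‖ ^ 2) ≤ 1 := by
  have hD' : (0 : ℝ) < D := by exact_mod_cast hD
  set z : ℂ := fourier 1 x with hz
  have hz1 : ‖z‖ = 1 := by rw [hz, fourier_apply]; exact Circle.norm_coe _
  have h1 : ∑ j ∈ Finset.range D, (fourier (j : ℤ) x : ℂ) = ∑ j ∈ Finset.range D, z ^ j := by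
    refine Finset.sum_congr rfl fun j _ => ?_
    exact (Pool.Agent.H390R2.zz_pow j x).symm
  have h2 : ‖∑ j ∈ Finset.range D, z ^ j‖ * ‖z - 1‖ ≤ 2 := by
    rw [← norm_mul, geom_sum_mul]
    refine (norm_sub_le _ _).trans ?_
    rw [norm_pow, hz1, one_pow, norm_one]
    norm_num
  have h3 := one_sub_ge x
  rw [← hz] at h3
  unfold fejer
  rw [h1]
  set S := ‖∑ j ∈ Finset.range D, z ^ j‖ with hS
  have hS0 : 0 ≤ S := norm_nonneg _
  have h4 : S * (4 * ‖x‖) ≤ 2 := le_trans (by gcongr) h2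
  have h5 : (S * (4 * ‖x‖)) ^ 2 ≤ 4 := by
    have h6 : 0 ≤ S * (4 * ‖x‖) := by positivity
    nlinarith
  have h7 : S ^ 2 / D * (4 * D * ‖x‖ ^ 2) = (S * (4 * ‖x‖)) ^ 2 / 4 := by
    have hD2 := hD'.ne'
    have e1 : S ^ 2 / D * (4 * D * ‖x‖ ^ 2) = S ^ 2 * (4 * ‖x‖ ^ 2) * (D / D) := by ring
    rw [e1, div_self hD2]
    ring
  rw [h7]
  linarith

theorem norm_coe_le (y : ℝ) : ‖(y : UnitAddCircle)‖ ≤ |y| := by
  rw [UnitAddCircle.norm_eq]
  simpa using round_le y 0

/-- the constant -/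
noncomputable def K0 : ℝ≥0∞ := ∑' j : ℕ, ENNReal.ofReal (4 * (1 / ((j : ℝ) + 1) ^ 2))

theorem K0_top : K0 ≠ ⊤ := by
  unfold K0
  have h : Summable fun j : ℕ => 4 * (1 / ((j : ℝ) + 1) ^ 2) := by
    have h1 := (summable_nat_add_iff 1).2 (Real.summable_one_div_nat_pow.2 (by norm_num : 1 < 2))
    have h2 := h1.mul_left 4
    refine h2.congr fun j => ?_
    push_cast
    rfl
  exact h.tsum_ofReal_ne_top

/-- the annuli -/
theorem annulus {D : ℕ} (hD : 0 < D) (u t : UnitAddCircle) :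
    ENNReal.ofReal (fejer D (t - u)) ≤ ∑' j : ℕ, (D : ℝ≥0∞) * ENNReal.ofReal (4 * (1 / ((j : ℝ) + 1) ^ 2)) *
      ((closedBall (u + (((j : ℝ) / D : ℝ) : UnitAddCircle)) (1 / D)).indicator 1 t +
        (closedBall (u - (((j : ℝ) / D : ℝ) : UnitAddCircle)) (1 / D)).indicator 1 t) := by
  have hD' : (0 : ℝ) < D := by exact_mod_cast hD
  set j : ℕ := ⌊(D : ℝ) * ‖t - u‖⌋₊ with hj
  have hn0 : 0 ≤ (D : ℝ) * ‖t - u‖ := by positivity
  have hj1 : (j : ℝ) ≤ D * ‖t - u‖ := Nat.floor_le hn0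
  have hj2 : D * ‖t - u‖ < j + 1 := Nat.lt_floor_add_one _
  refine le_trans ?_ (ENNReal.le_tsum j)
  have hmem : (1 : ℝ≥0∞) ≤
      ((closedBall (u + (((j : ℝ) / D : ℝ) : UnitAddCircle)) (1 / D)).indicator 1 t +
        (closedBall (u - (((j : ℝ) / D : ℝ) : UnitAddCircle)) (1 / D)).indicator 1 t) := by
    obtain ⟨y, hy, hy1, hy2⟩ := rep (t - u)
    have hb : |(|y| - j / D)| ≤ 1 / D := by
      rw [← hy1, abs_le]
      constructor
      · have h1 : (j : ℝ) / D ≤ ‖t - u‖ := by rw [div_le_iff₀ hD']; linarith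
        have h2 : 0 < 1 / (D : ℝ) := by positivity
        linarith
      · have h1 : ‖t - u‖ ≤ (j + 1) / D := by rw [le_div_iff₀ hD']; linarith
        rw [add_div] at h1
        linarith
    rcases le_total 0 y with h | h
    · have hm : t ∈ closedBall (u + (((j : ℝ) / D : ℝ) : UnitAddCircle)) (1 / D) := by
        rw [mem_closedBall, dist_eq_norm]
        have e : t - (u + (((j : ℝ) / D : ℝ) : UnitAddCircle)) =
            ((y - (j : ℝ) / D : ℝ) : UnitAddCircle) := by
          rw [AddCircle.coe_sub, hy]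
          abel
        rw [e]
        refine (norm_coe_le _).trans ?_
        rw [abs_of_nonneg h] at hb
        exact hb
      rw [indicator_of_mem hm]
      exact le_self_add
    · have hm : t ∈ closedBall (u - (((j : ℝ) / D : ℝ) : UnitAddCircle)) (1 / D) := by
        rw [mem_closedBall, dist_eq_norm]
        have e : t - (u - (((j : ℝ) / D : ℝ) : UnitAddCircle)) =
            ((y + (j : ℝ) / D : ℝ) : UnitAddCircle) := by
          rw [AddCircle.coe_add, hy]
          abel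
        rw [e]
        refine (norm_coe_le _).trans ?_
        rw [abs_of_nonpos h] at hb
        rw [← abs_neg]
        have e2 : -(y + (j : ℝ) / D) = -y - j / D := by ring
        rw [e2]
        exact hb
      rw [indicator_of_mem hm]
      exact le_add_self
  have hfe : fejer D (t - u) ≤ D * (4 * (1 / ((j : ℝ) + 1) ^ 2)) := by
    have h1 := fejer_le_D D (t - u)
    rcases Nat.eq_zero_or_pos j with h0 | h0
    · rw [h0]
      norm_num
      linarith
    · have hj0 : (1 : ℝ) ≤ j := by exact_mod_cast h0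
      have h2 := fejer_le_inv hD (t - u)
      have h3 : (j : ℝ) ^ 2 ≤ (D * ‖t - u‖) ^ 2 := by gcongr
      have hf0 := fejer_nonneg D (t - u)
      have h4 : fejer D (t - u) * (4 * (j : ℝ) ^ 2) ≤ D := by
        calc fejer D (t - u) * (4 * (j : ℝ) ^ 2) ≤ fejer D (t - u) * (4 * (D * ‖t - u‖) ^ 2) := by
              gcongr
          _ = (fejer D (t - u) * (4 * D * ‖t - u‖ ^ 2)) * D := by ring
          _ ≤ 1 * D := by gcongr
          _ = D := one_mul _
      have h5 : ((j : ℝ) + 1) ^ 2 ≤ 4 * (j : ℝ) ^ 2 := by nlinarith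
      have h6 : fejer D (t - u) * ((j : ℝ) + 1) ^ 2 ≤ D :=
        le_trans (by gcongr) h4
      have h7 : (0 : ℝ) < ((j : ℝ) + 1) ^ 2 := by positivity
      rw [show (D : ℝ) * (4 * (1 / ((j : ℝ) + 1) ^ 2)) = (4 * D) / ((j : ℝ) + 1) ^ 2 by ring,
        le_div_iff₀ h7]
      linarith
  calc ENNReal.ofReal (fejer D (t - u)) ≤ ENNReal.ofReal (D * (4 * (1 / ((j : ℝ) + 1) ^ 2))) :=
        ENNReal.ofReal_le_ofReal hfe
    _ = (D : ℝ≥0∞) * ENNReal.ofReal (4 * (1 / ((j : ℝ) + 1) ^ 2)) := by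
        rw [ENNReal.ofReal_mul hD'.le, ENNReal.ofReal_natCast]
    _ = (D : ℝ≥0∞) * ENNReal.ofReal (4 * (1 / ((j : ℝ) + 1) ^ 2)) * 1 := (mul_one _).symm
    _ ≤ _ := by gcongr

theorem fejer_mu {D : ℕ} (hD : 0 < D) (μ : Measure UnitAddCircle) (m : ℝ≥0∞)
    (hμ : ∀ t, μ (closedBall t (1 / D)) ≤ m) (u : UnitAddCircle) :
    ∫⁻ t, ENNReal.ofReal (fejer D (t - u)) ∂μ ≤ 2 * K0 * (D * m) := by
  have hmeas : ∀ v : UnitAddCircle, Measurable ((closedBall v (1 / (D : ℝ))).indicator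
      (1 : UnitAddCircle → ℝ≥0∞)) := fun v => measurable_one.indicator measurableSet_closedBall
  calc ∫⁻ t, ENNReal.ofReal (fejer D (t - u)) ∂μ
      ≤ ∫⁻ t, ∑' j : ℕ, (D : ℝ≥0∞) * ENNReal.ofReal (4 * (1 / ((j : ℝ) + 1) ^ 2)) *
      ((closedBall (u + (((j : ℝ) / D : ℝ) : UnitAddCircle)) (1 / D)).indicator 1 t +
        (closedBall (u - (((j : ℝ) / D : ℝ) : UnitAddCircle)) (1 / D)).indicator 1 t) ∂μ :=
        lintegral_mono fun t => annulus hD u t
    _ = ∑' j : ℕ, ∫⁻ t, (D : ℝ≥0∞) * ENNReal.ofReal (4 * (1 / ((j : ℝ) + 1) ^ 2)) *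
      ((closedBall (u + (((j : ℝ) / D : ℝ) : UnitAddCircle)) (1 / D)).indicator 1 t +
        (closedBall (u - (((j : ℝ) / D : ℝ) : UnitAddCircle)) (1 / D)).indicator 1 t) ∂μ := by
        refine lintegral_tsum fun j => ?_
        exact (((hmeas _).add (hmeas _)).const_mul _).aemeasurable
    _ ≤ ∑' j : ℕ, (D : ℝ≥0∞) * ENNReal.ofReal (4 * (1 / ((j : ℝ) + 1) ^ 2)) * (2 * m) := by
        refine ENNReal.tsum_le_tsum fun j => ?_
        have e1 := lintegral_const_mul (μ := μ)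
          ((D : ℝ≥0∞) * ENNReal.ofReal (4 * (1 / ((j : ℝ) + 1) ^ 2)))
          ((hmeas (u + (((j : ℝ) / D : ℝ) : UnitAddCircle))).add
            (hmeas (u - (((j : ℝ) / D : ℝ) : UnitAddCircle))))
        simp only [Pi.add_apply] at e1
        rw [e1, lintegral_add_left (hmeas _),
          lintegral_indicator_one measurableSet_closedBall,
          lintegral_indicator_one measurableSet_closedBall]
        gcongr
        rw [two_mul]
        exact add_le_add (hμ _) (hμ _)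
    _ = _ := by
        rw [ENNReal.tsum_mul_right, ENNReal.tsum_mul_left]
        unfold K0
        ring

end Pool.Agent.Helper969.EX
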