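import Mathlib
import Pool.Agent.Helper969.HW.F5
import Pool.Agent.Helper969.EX.X1
set_option autoImplicit false

/-! Trigonometric polynomials against a measure. -/

namespace Pool.Agent.Helper969.EX

open MeasureTheory Measure Set Metric Complex Filter
open Pool.Agent.H390R2 (fejer fejer_nonneg continuous_fejer)
open Pool.Agent.Helper969.HW (fm fm_eq fejer_lint jensen ee ee_cont norm_ee ee_pow sum_split)
open scoped ENNReal ComplexConjugate Topology

theorem fejer_meas (D : ℕ) : Measurable fun τ : UnitAddCircle => ENNReal.ofReal (fejer D τ) :=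
  (continuous_fejer D).measurable.ennreal_ofReal

theorem fm_pt {D : ℕ} (hD : 0 < D) (g : UnitAddCircle → ℂ)
    (hg : Integrable g AddCircle.haarAddCircle) (r : ℝ) (hr : 1 ≤ r) (t : UnitAddCircle) :
    ‖fm D g t‖ₑ ^ r ≤
      ∫⁻ τ, ENNReal.ofReal (fejer D (t - τ)) * ‖g τ‖ₑ ^ r ∂AddCircle.haarAddCircle := by
  have hk : ∫⁻ τ, ENNReal.ofReal (fejer D (t - τ)) ∂AddCircle.haarAddCircle = 1 := by
    rw [← fejer_lint hD, ← lintegral_neg_eq_self (fun τ => ENNReal.ofReal (fejer D (t - τ))),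
      ← lintegral_add_left_eq_self (fun τ => ENNReal.ofReal (fejer D τ)) t]
    refine lintegral_congr fun τ => ?_
    rw [sub_neg_eq_add]
  have h2 : ‖fm D g t‖ₑ ≤
      ∫⁻ τ, ENNReal.ofReal (fejer D (t - τ)) * ‖g τ‖ₑ ∂AddCircle.haarAddCircle := by
    rw [fm_eq hD g hg]
    refine (enorm_integral_le_lintegral_enorm _).trans (le_of_eq ?_)
    refine lintegral_congr fun τ => ?_
    rw [enorm_mul, ← ofReal_norm, Complex.norm_real, Real.norm_of_nonneg (fejer_nonneg _ _)]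
  refine (ENNReal.rpow_le_rpow h2 (by linarith)).trans ?_
  exact jensen _ _ _ ((fejer_meas D).comp (measurable_const.sub measurable_id)) hg.1.enorm hk r hr

theorem fm_mu {D : ℕ} (hD : 0 < D) (g : UnitAddCircle → ℂ)
    (hg : Integrable g AddCircle.haarAddCircle) (r : ℝ) (hr : 1 ≤ r) (μ : Measure UnitAddCircle)
    [IsFiniteMeasure μ] (m : ℝ≥0∞) (hμ : ∀ t, μ (closedBall t (1 / D)) ≤ m) :
    ∫⁻ t, ‖fm D g t‖ₑ ^ r ∂μ ≤ 2 * K0 * (D * m) * ∫⁻ t, ‖g t‖ₑ ^ r ∂hm := by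
  refine (lintegral_mono fun t => fm_pt hD g hg r hr t).trans ?_
  have hm2 : AEMeasurable (Function.uncurry fun (t τ : UnitAddCircle) =>
      ENNReal.ofReal (fejer D (t - τ)) * ‖g τ‖ₑ ^ r)
      (μ.prod AddCircle.haarAddCircle) := by
    have m1 : Measurable fun p : UnitAddCircle × UnitAddCircle =>
        ENNReal.ofReal (fejer D (p.1 - p.2)) := by
      have h := (fejer_meas D).comp (measurable_fst.sub measurable_snd :
        Measurable fun p : UnitAddCircle × UnitAddCircle => p.1 - p.2)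
      exact h
    have m2 : AEMeasurable (fun p : UnitAddCircle × UnitAddCircle => ‖g p.2‖ₑ ^ r)
        (μ.prod AddCircle.haarAddCircle) := by
      have h := (hg.1.enorm.pow_const r).comp_snd (μ := μ)
      exact h
    exact m1.aemeasurable.mul m2
  rw [lintegral_lintegral_swap hm2]
  have hfin : 2 * K0 * (D * m) * ∫⁻ t, ‖g t‖ₑ ^ r ∂hm =
      ∫⁻ t, 2 * K0 * (D * m) * ‖g t‖ₑ ^ r ∂hm := by
    rw [lintegral_const_mul'' _ (hg.1.enorm.pow_const r)]
  rw [hfin]
  refine lintegral_mono fun τ => ?_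
  have m3 : Measurable fun t : UnitAddCircle => ENNReal.ofReal (fejer D (t - τ)) := by
    have h := (fejer_meas D).comp (measurable_id.sub_const τ)
    exact h
  simp only
  rw [lintegral_mul_const _ m3]
  gcongr
  exact fejer_mu hD μ m hμ τ

/-- trigonometric polynomial -/
noncomputable def SS (N : ℕ) (c : ℕ → ℂ) (t : UnitAddCircle) : ℂ :=
  ∑ k ∈ Finset.range N, c k * ee t ^ k

theorem SS_cont (N : ℕ) (c : ℕ → ℂ) : Continuous (SS N c) := by
  unfold SS
  have := ee_cont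
  fun_prop

theorem SS_int (N : ℕ) (c : ℕ → ℂ) : Integrable (SS N c) hm := by
  obtain ⟨C, hC⟩ := isCompact_univ.exists_bound_of_continuousOn (SS_cont N c).continuousOn
  exact Integrable.of_bound (SS_cont N c).aestronglyMeasurable C
    (Eventually.of_forall fun τ => hC τ (mem_univ _))

theorem SS_coeff (N : ℕ) (c : ℕ → ℂ) (j : ℤ) :
    fourierCoeff (SS N c) j = ∑ k ∈ Finset.range N, if (k : ℤ) = j then c k else 0 := by
  unfold fourierCoeff SS
  simp_rw [smul_eq_mul, Finset.mul_sum, ee_pow]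
  have hb : ∀ k : ℕ, Integrable (fun t : UnitAddCircle => (fourier (-j) t : ℂ) * (c k * fourier (k : ℤ) t)) hm := by
    intro k
    have hc : Continuous (fun t : UnitAddCircle => (fourier (-j) t : ℂ) * (c k * fourier (k : ℤ) t)) := by
      fun_prop
    obtain ⟨C, hC⟩ := isCompact_univ.exists_bound_of_continuousOn hc.continuousOn
    exact Integrable.of_bound hc.aestronglyMeasurable C
      (Eventually.of_forall fun τ => hC τ (mem_univ _))
  rw [integral_finsetSum _ fun k _ => hb k]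
  refine Finset.sum_congr rfl fun k _ => ?_
  have e : ∀ t : UnitAddCircle, (fourier (-j) t : ℂ) * (c k * fourier (k : ℤ) t) =
      c k * fourier ((k : ℤ) - j) t := by
    intro t
    rw [sub_eq_add_neg, fourier_add]
    ring
  simp_rw [e]
  rw [integral_const_mul]
  have h := Pool.Agent.H390R2.integral_fourier ((k : ℤ) - j)
  rw [h]
  by_cases hk : (k : ℤ) = j
  · rw [if_pos hk, if_pos (by omega), mul_one]
  · rw [if_neg hk, if_neg (by omega), mul_zero]

theorem SS_coeff_nat (N : ℕ) (c : ℕ → ℂ) (j : ℕ) :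
    fourierCoeff (SS N c) (j : ℤ) = if j < N then c j else 0 := by
  rw [SS_coeff]
  by_cases h : j < N
  · rw [if_pos h, Finset.sum_eq_single j]
    · simp
    · intro b _ hb
      rw [if_neg (by omega)]
    · intro h2
      exact absurd (Finset.mem_range.2 h) h2
  · rw [if_neg h]
    refine Finset.sum_eq_zero fun k hk => ?_
    have := Finset.mem_range.1 hk
    rw [if_neg (by omega)]

theorem SS_coeff_neg (N : ℕ) (c : ℕ → ℂ) (j : ℕ) (hj : 0 < j) :
    fourierCoeff (SS N c) (-(j : ℤ)) = 0 := by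
  rw [SS_coeff]
  refine Finset.sum_eq_zero fun k _ => ?_
  rw [if_neg (by omega)]

theorem fm_SS (N D : ℕ) (hND : N ≤ D) (c : ℕ → ℂ) (t : UnitAddCircle) :
    fm D (SS N c) t = ∑ k ∈ Finset.range N, ((1 - (k : ℝ) / D : ℝ) : ℂ) * (c k * ee t ^ k) := by
  unfold fm
  rw [sum_split]
  have h0 : ∑ k ∈ Finset.range D, (if 0 < k then ((1 - |((-(k : ℤ) : ℤ) : ℝ)| / D : ℝ) : ℂ) *
      (fourierCoeff (SS N c) (-(k : ℤ)) * fourier (-(k : ℤ)) t) else 0) = 0 := by
    refine Finset.sum_eq_zero fun k _ => ?_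
    by_cases hk : 0 < k
    · rw [if_pos hk, SS_coeff_neg N c k hk, zero_mul, mul_zero]
    · rw [if_neg hk]
  rw [h0, add_zero]
  symm
  rw [← Finset.sum_subset (Finset.range_mono hND) (f := fun k : ℕ =>
    ((1 - |((k : ℤ) : ℝ)| / D : ℝ) : ℂ) * (fourierCoeff (SS N c) (k : ℤ) * fourier (k : ℤ) t))]
  · refine Finset.sum_congr rfl fun k hk => ?_
    rw [SS_coeff_nat, if_pos (Finset.mem_range.1 hk), ee_pow, Int.cast_natCast,
      abs_of_nonneg (Nat.cast_nonneg k)]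
  · intro k _ hk
    rw [SS_coeff_nat, if_neg (fun h => hk (Finset.mem_range.2 h)), zero_mul, mul_zero]

theorem SS_repr (N : ℕ) (hN : 0 < N) (c : ℕ → ℂ) (t : UnitAddCircle) :
    SS N c t = 2 * fm (2 * N) (SS N c) t - fm N (SS N c) t := by
  rw [fm_SS N (2 * N) (by omega), fm_SS N N le_rfl, Finset.mul_sum, ← Finset.sum_sub_distrib]
  unfold SS
  refine Finset.sum_congr rfl fun k _ => ?_
  have hN' : (N : ℂ) ≠ 0 := by exact_mod_cast hN.ne'
  push_cast
  field_simp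
  ring

/-- **sampling** -/
theorem poly_mu (p : ℝ) (hp : 1 ≤ p) {N : ℕ} (hN : 0 < N) (c : ℕ → ℂ) (μ : Measure UnitAddCircle)
    [IsFiniteMeasure μ] (m : ℝ≥0∞) (hμ : ∀ t, μ (closedBall t (1 / N)) ≤ m) :
    ∫⁻ t, ‖SS N c t‖ₑ ^ p ∂μ ≤
      2 ^ (p - 1) * (2 ^ p * (4 * K0 * (N * m)) + 2 * K0 * (N * m)) * ∫⁻ t, ‖SS N c t‖ₑ ^ p ∂hm := by
  have hi := SS_int N c
  have h1 := fm_mu hN (SS N c) hi p hp μ m hμ
  have h2 := fm_mu (D := 2 * N) (by omega) (SS N c) hi p hp μ m (fun t => by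
    refine le_trans (measure_mono (closedBall_subset_closedBall ?_)) (hμ t)
    have hN' : (0 : ℝ) < N := by exact_mod_cast hN
    push_cast
    apply one_div_le_one_div_of_le hN'
    linarith)
  have hpt : ∀ t, ‖SS N c t‖ₑ ^ p ≤ 2 ^ (p - 1) * (2 ^ p * ‖fm (2 * N) (SS N c) t‖ₑ ^ p +
      ‖fm N (SS N c) t‖ₑ ^ p) := by
    intro t
    have h3 : ‖SS N c t‖ₑ ≤ 2 * ‖fm (2 * N) (SS N c) t‖ₑ + ‖fm N (SS N c) t‖ₑ := by
      conv_lhs => rw [SS_repr N hN c t]
      refine (enorm_sub_le).trans ?_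
      rw [enorm_mul]
      gcongr
      rw [← ofReal_norm]
      norm_num
    refine (ENNReal.rpow_le_rpow h3 (by linarith)).trans ?_
    refine (ENNReal.rpow_add_le_mul_rpow_add_rpow _ _ hp).trans ?_
    rw [ENNReal.mul_rpow_of_nonneg _ _ (by linarith)]
  have hcf : ∀ D, Continuous (fm D (SS N c)) := by
    intro D
    unfold fm
    fun_prop
  calc ∫⁻ t, ‖SS N c t‖ₑ ^ p ∂μ ≤ ∫⁻ t, 2 ^ (p - 1) * (2 ^ p * ‖fm (2 * N) (SS N c) t‖ₑ ^ p +
      ‖fm N (SS N c) t‖ₑ ^ p) ∂μ := lintegral_mono hpt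
    _ = 2 ^ (p - 1) * (2 ^ p * (∫⁻ t, ‖fm (2 * N) (SS N c) t‖ₑ ^ p ∂μ) +
      ∫⁻ t, ‖fm N (SS N c) t‖ₑ ^ p ∂μ) := by
        have m1 : Measurable fun t => ‖fm (2 * N) (SS N c) t‖ₑ ^ p :=
          (hcf _).measurable.enorm.pow_const p
        have m2 : Measurable fun t => ‖fm N (SS N c) t‖ₑ ^ p :=
          (hcf _).measurable.enorm.pow_const p
        rw [lintegral_const_mul' _ _ (ENNReal.rpow_ne_top_of_nonneg (by linarith) (by norm_num)),
          lintegral_add_left (m1.const_mul _), lintegral_const_mul _ m1]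
    _ ≤ 2 ^ (p - 1) * (2 ^ p * (2 * K0 * ((2 * N : ℕ) * m) * ∫⁻ t, ‖SS N c t‖ₑ ^ p ∂hm) +
      2 * K0 * (N * m) * ∫⁻ t, ‖SS N c t‖ₑ ^ p ∂hm) := by gcongr
    _ = _ := by
        push_cast
        ring

end Pool.Agent.Helper969.EX
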