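import Mathlib
import Pool.Agent.Helper969.HW.F5
import Pool.Agent.Helper969.EX.X2
set_option autoImplicit false

/-! Transforms of spherical harmonics of high degree are small. -/

namespace Pool.Agent.Helper969.EX

open MeasureTheory Measure Set Metric Complex MvPolynomial Filter
open Pool.Agent.H789R2.FR (E sg sg_finite sg_ae sg_inv T polar)
open Pool.Agent.H789R2.FR.L2 (ph norm_ph continuous_ph T_eq)
open Pool.Agent.Helper969.HW
open scoped RealInnerProductSpace ENNReal Topology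

variable {n : ℕ}

/-- the `L^1` norm on the sphere -/
noncomputable def N1 (P : MvPolynomial (Fin n) ℂ) : ℝ := ∫ w, ‖ev P w‖ ∂(sg n)

theorem N1_nonneg (P : MvPolynomial (Fin n) ℂ) : 0 ≤ N1 P := integral_nonneg fun _ => norm_nonneg _

theorem mom_le (m : ℕ) (P : MvPolynomial (Fin n) ℂ) (x : E n) : ‖mom m P x‖ ≤ ‖x‖ ^ m * N1 P := by
  have hfin := sg_finite n
  unfold mom N1
  refine (norm_integral_le_integral_norm _).trans ?_
  rw [← integral_const_mul]
  refine integral_mono_ae (int_ev _).norm ((int_ev P).norm.const_mul _) ?_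
  filter_upwards [sg_ae n] with w hw
  have h4 : ev (lin x ^ m * P) w = ((⟪x, w⟫ : ℝ) : ℂ) ^ m * ev P w := by
    rw [ev_mul]
    congr 1
    unfold ev
    rw [_root_.map_pow]
    congr 1
    exact ev_lin x w
  have h1 : |⟪x, w⟫| ≤ ‖x‖ := by
    have := abs_real_inner_le_norm x w
    rwa [hw, mul_one] at this
  rw [h4, norm_mul, norm_pow, Complex.norm_real, Real.norm_eq_abs]
  gcongr

theorem mom_lt (hn : 2 ≤ n) {k m : ℕ} (hm : m < k) {P : MvPolynomial (Fin n) ℂ} (hP : Harm k P)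
    (x : E n) : mom m P x = 0 :=
  (moments hn m k P hP x).2 fun j => by omega

theorem T_small (hn : 2 ≤ n) {k : ℕ} {P : MvPolynomial (Fin n) ℂ} (hP : Harm k P) (x : E n) :
    ‖T (ev P) x‖ ≤ ‖x‖ ^ k / k.factorial * Real.exp ‖x‖ * N1 P := by
  have h := T_series P x
  have h0 : ∑ i ∈ Finset.range k, (-I) ^ i / (i.factorial : ℂ) * mom i P x = 0 := by
    refine Finset.sum_eq_zero fun i hi => ?_
    rw [mom_lt hn (Finset.mem_range.1 hi) hP, mul_zero]
  have h1 := (hasSum_nat_add_iff' k).2 h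
  rw [h0, sub_zero] at h1
  have hexp : HasSum (fun i : ℕ => ‖x‖ ^ i / (i.factorial : ℝ)) (Real.exp ‖x‖) := by
    rw [Real.exp_eq_exp_ℝ]
    exact NormedSpace.expSeries_div_hasSum_exp ‖x‖
  have h2 := hexp.mul_left (‖x‖ ^ k / k.factorial * N1 P)
  have h3 := h1.norm_le_of_bounded h2 (fun i => by
    rw [norm_mul, norm_div, norm_pow, norm_neg, Complex.norm_I, one_pow, Complex.norm_natCast]
    have h4 := mom_le (i + k) P x
    have h5 : (k.factorial : ℝ) * i.factorial ≤ (i + k).factorial := by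
      have := Nat.le_of_dvd (Nat.factorial_pos (i + k)) (Nat.factorial_mul_factorial_dvd_factorial_add i k)
      have h6 : ((i.factorial * k.factorial : ℕ) : ℝ) ≤ ((i + k).factorial : ℝ) := by exact_mod_cast this
      push_cast at h6
      linarith
    have h7 : (0 : ℝ) < (k.factorial : ℝ) * i.factorial := by positivity
    calc 1 / ((i + k).factorial : ℝ) * ‖mom (i + k) P x‖ ≤
        1 / ((k.factorial : ℝ) * i.factorial) * (‖x‖ ^ (i + k) * N1 P) := by
          gcongr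
      _ = ‖x‖ ^ k / k.factorial * N1 P * (‖x‖ ^ i / i.factorial) := by
          rw [pow_add]
          field_simp)
  calc ‖T (ev P) x‖ ≤ ‖x‖ ^ k / k.factorial * N1 P * Real.exp ‖x‖ := h3
    _ = _ := by ring

theorem small_num (a : ℝ) (ha : 0 ≤ a) (k : ℕ) (hk : 16 * a ≤ k) :
    a ^ k / k.factorial * Real.exp a ≤ (1 / 2) ^ k := by
  have h1 : a ≤ (k : ℝ) / 16 := by linarith
  have hk0 : (0 : ℝ) ≤ k := Nat.cast_nonneg k
  have h2 : a ^ k / k.factorial ≤ Real.exp k / 16 ^ k := by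
    calc a ^ k / k.factorial ≤ ((k : ℝ) / 16) ^ k / k.factorial := by gcongr
      _ = ((k : ℝ) ^ k / k.factorial) / 16 ^ k := by rw [div_pow]; ring
      _ ≤ Real.exp k / 16 ^ k := by
          gcongr
          exact Real.pow_div_factorial_le_exp (k : ℝ) hk0 k
  have h3 : Real.exp a ≤ Real.exp k := Real.exp_le_exp.2 (by linarith)
  have h4 : Real.exp k = Real.exp 1 ^ k := by rw [← Real.exp_nat_mul, mul_one]
  have h5 : Real.exp 1 ^ 2 ≤ 8 := by
    have := Real.exp_one_lt_d9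
    have h6 : 0 ≤ Real.exp 1 := (Real.exp_pos 1).le
    nlinarith
  calc a ^ k / k.factorial * Real.exp a ≤ Real.exp k / 16 ^ k * Real.exp k := by gcongr
    _ = (Real.exp 1 ^ 2 / 16) ^ k := by rw [h4, div_pow]; ring
    _ ≤ (1 / 2) ^ k := by
        apply pow_le_pow_left₀ (by positivity)
        linarith

/-- the transform of the family, as a series -/
noncomputable def AA (P : ℕ → MvPolynomial (Fin n) ℂ) (z : ℂ) (x : E n) : ℂ :=
  ∑' k : ℕ, T (ev (P k)) x * z ^ k

theorem term_le (hn : 2 ≤ n) (P : ℕ → MvPolynomial (Fin n) ℂ) (hP : ∀ k, Harm k (P k)) (L : ℝ)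
    (hL : ∀ k, N1 (P k) ≤ L) (z : ℂ) (hz : ‖z‖ = 1) (x : E n) (k : ℕ) :
    ‖T (ev (P k)) x * z ^ k‖ ≤ ‖x‖ ^ k / k.factorial * (Real.exp ‖x‖ * L) := by
  rw [norm_mul, norm_pow, hz, one_pow, mul_one]
  refine (T_small hn (hP k) x).trans ?_
  rw [mul_assoc]
  have := hL k
  gcongr

theorem term_summable (hn : 2 ≤ n) (P : ℕ → MvPolynomial (Fin n) ℂ) (hP : ∀ k, Harm k (P k)) (L : ℝ)
    (hL : ∀ k, N1 (P k) ≤ L) (z : ℂ) (hz : ‖z‖ = 1) (x : E n) :
    Summable fun k => T (ev (P k)) x * z ^ k :=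
  Summable.of_norm_bounded ((Real.summable_pow_div_factorial ‖x‖).mul_right (Real.exp ‖x‖ * L))
    (term_le hn P hP L hL z hz x)

/-- splitting -/
theorem split (hn : 2 ≤ n) (P : ℕ → MvPolynomial (Fin n) ℂ) (hP : ∀ k, Harm k (P k)) (L : ℝ)
    (hL : ∀ k, N1 (P k) ≤ L) (x : E n) (N : ℕ) (hN : 16 * ‖x‖ ≤ N) (t : UnitAddCircle) :
    ‖AA P (ee t) x - SS N (fun k => T (ev (P k)) x) t‖ ≤ 2 * (1 / 2) ^ N * L := by
  have hs := term_summable hn P hP L hL (ee t) (norm_ee t) x
  have h1 := (hasSum_nat_add_iff' N).2 hs.hasSum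
  have hg : HasSum (fun i : ℕ => ((1 : ℝ) / 2) ^ (i + N) * L) (2 * (1 / 2) ^ N * L) := by
    have h2 := (hasSum_geometric_two).mul_right (((1 : ℝ) / 2) ^ N * L)
    have e1 : (fun i : ℕ => ((1 : ℝ) / 2) ^ (i + N) * L) =
        fun i : ℕ => ((1 : ℝ) / 2) ^ i * (((1 : ℝ) / 2) ^ N * L) := by
      funext i
      rw [pow_add]
      ring
    have e2 : 2 * (1 / 2) ^ N * L = 2 * (((1 : ℝ) / 2) ^ N * L) := by ring
    rw [e1, e2]
    exact h2
  have h3 := h1.norm_le_of_bounded hg (fun i => by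
    rw [norm_mul, norm_pow, norm_ee, one_pow, mul_one]
    refine (T_small hn (hP (i + N)) x).trans ?_
    have h4 := small_num ‖x‖ (norm_nonneg x) (i + N) (by push_cast; linarith [Nat.cast_nonneg (α := ℝ) i])
    have h5 := hL (i + N)
    have h6 := N1_nonneg (P (i + N))
    gcongr)
  exact h3

end Pool.Agent.Helper969.EX
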