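import Mathlib
import Pool.Agent.Helper969.HW.F2
import Pool.Agent.Helper969.EX.X3
set_option autoImplicit false

/-! Sampling in time, and the average over a shell. -/

namespace Pool.Agent.Helper969.EX

open MeasureTheory Measure Set Metric Complex MvPolynomial Filter
open Pool.Agent.H789R2.FR (E sg sg_finite sg_ae sg_inv T polar)
open Pool.Agent.H789R2.FR.L2 (ph norm_ph continuous_ph T_eq)
open Pool.Agent.Y251.HR (c2 c2_cont norm_c2 c2_smul shell shell_meas)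
open Pool.Agent.Helper969.HW hiding hm
open scoped RealInnerProductSpace ENNReal Topology

variable {n : ℕ}

noncomputable def Q1 (p : ℝ) : ℝ≥0∞ := 2 ^ (p - 1) * (2 ^ p * (4 * K0) + 2 * K0)

noncomputable def Q2 (p : ℝ) : ℝ≥0∞ := 2 ^ (p - 1) * (Q1 p * (2 ^ (p - 1) + 1))

theorem two_rpow_top (p : ℝ) : (2 : ℝ≥0∞) ^ p ≠ ⊤ :=
  ENNReal.rpow_ne_top_of_ne_zero (by norm_num) (by norm_num)

theorem Q1_top (p : ℝ) : Q1 p ≠ ⊤ := by
  unfold Q1
  have h1 := two_rpow_top (p - 1)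
  have h2 := two_rpow_top p
  have h3 := K0_top
  exact ENNReal.mul_ne_top h1 (ENNReal.add_ne_top.2 ⟨ENNReal.mul_ne_top h2
    (ENNReal.mul_ne_top (by norm_num) h3), ENNReal.mul_ne_top (by norm_num) h3⟩)

theorem Q2_top (p : ℝ) : Q2 p ≠ ⊤ := by
  unfold Q2
  exact ENNReal.mul_ne_top (two_rpow_top _) (ENNReal.mul_ne_top (Q1_top p)
    (ENNReal.add_ne_top.2 ⟨two_rpow_top _, by norm_num⟩))

theorem poly_mu' (p : ℝ) (hp : 1 ≤ p) {N : ℕ} (hN : 0 < N) (c : ℕ → ℂ) (μ : Measure UnitAddCircle)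
    [IsFiniteMeasure μ] (m : ℝ≥0∞) (hμ : ∀ t, μ (closedBall t (1 / N)) ≤ m) :
    ∫⁻ t, ‖SS N c t‖ₑ ^ p ∂μ ≤ Q1 p * (N * m) * ∫⁻ t, ‖SS N c t‖ₑ ^ p ∂hm := by
  refine (poly_mu p hp hN c μ m hμ).trans (le_of_eq ?_)
  unfold Q1
  ring

theorem mass_le (p : ℝ) (hp : 1 ≤ p) {N : ℕ} (hN : 0 < N) (μ : Measure UnitAddCircle)
    [IsFiniteMeasure μ] (m : ℝ≥0∞) (hμ : ∀ t, μ (closedBall t (1 / N)) ≤ m) :
    μ univ ≤ Q1 p * (N * m) := by
  have h := poly_mu' p hp hN (fun k => if k = 0 then 1 else 0) μ m hμ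
  have e : ∀ t, SS N (fun k => if k = 0 then 1 else 0) t = 1 := by
    intro t
    unfold SS
    rw [Finset.sum_eq_single 0]
    · simp
    · intro b _ hb
      show (if b = 0 then (1 : ℂ) else 0) * ee t ^ b = 0
      rw [if_neg hb, zero_mul]
    · intro h
      exact absurd (Finset.mem_range.2 hN) h
  simp_rw [e] at h
  simpa using h

theorem pt_mu (hn : 2 ≤ n) (P : ℕ → MvPolynomial (Fin n) ℂ) (hP : ∀ k, Harm k (P k)) (L : ℝ)
    (hL : ∀ k, N1 (P k) ≤ L) (p : ℝ) (hp : 1 ≤ p) (μ : Measure UnitAddCircle) [IsFiniteMeasure μ]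
    {N : ℕ} (hN : 0 < N) (m : ℝ≥0∞) (hμ : ∀ t, μ (closedBall t (1 / N)) ≤ m) (x : E n)
    (hx : 16 * ‖x‖ ≤ N) :
    ∫⁻ t, ‖AA P (ee t) x‖ₑ ^ p ∂μ ≤ Q2 p * (N * m) *
      ((∫⁻ t, ‖AA P (ee t) x‖ₑ ^ p ∂hm) + ENNReal.ofReal (2 * (1 / 2) ^ N * L) ^ p) := by
  set c : ℕ → ℂ := fun k => T (ev (P k)) x with hc
  set τ : ℝ≥0∞ := ENNReal.ofReal (2 * (1 / 2) ^ N * L) with hτ
  have hd : ∀ t, ‖AA P (ee t) x - SS N c t‖ₑ ≤ τ := by
    intro t
    rw [← ofReal_norm]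
    exact ENNReal.ofReal_le_ofReal (split hn P hP L hL x N hx t)
  have h1 : ∀ t, ‖AA P (ee t) x‖ₑ ≤ ‖SS N c t‖ₑ + τ := by
    intro t
    calc ‖AA P (ee t) x‖ₑ = ‖SS N c t + (AA P (ee t) x - SS N c t)‖ₑ := by ring_nf
      _ ≤ ‖SS N c t‖ₑ + ‖AA P (ee t) x - SS N c t‖ₑ := enorm_add_le _ _
      _ ≤ _ := by gcongr; exact hd t
  have h2 : ∀ t, ‖SS N c t‖ₑ ≤ ‖AA P (ee t) x‖ₑ + τ := by
    intro t
    calc ‖SS N c t‖ₑ = ‖AA P (ee t) x - (AA P (ee t) x - SS N c t)‖ₑ := by ring_nf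
      _ ≤ ‖AA P (ee t) x‖ₑ + ‖AA P (ee t) x - SS N c t‖ₑ := enorm_sub_le
      _ ≤ _ := by gcongr; exact hd t
  have hp0 : 0 ≤ p := by linarith
  have h1p : ∀ t, ‖AA P (ee t) x‖ₑ ^ p ≤ 2 ^ (p - 1) * (‖SS N c t‖ₑ ^ p + τ ^ p) := fun t =>
    (ENNReal.rpow_le_rpow (h1 t) hp0).trans (ENNReal.rpow_add_le_mul_rpow_add_rpow _ _ hp)
  have h2p : ∀ t, ‖SS N c t‖ₑ ^ p ≤ 2 ^ (p - 1) * (‖AA P (ee t) x‖ₑ ^ p + τ ^ p) := fun t =>
    (ENNReal.rpow_le_rpow (h2 t) hp0).trans (ENNReal.rpow_add_le_mul_rpow_add_rpow _ _ hp)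
  set I := ∫⁻ t, ‖AA P (ee t) x‖ₑ ^ p ∂hm with hI
  have hS : ∫⁻ t, ‖SS N c t‖ₑ ^ p ∂hm ≤ 2 ^ (p - 1) * (I + τ ^ p) := by
    refine (lintegral_mono h2p).trans (le_of_eq ?_)
    rw [lintegral_const_mul' _ _ (two_rpow_top _), lintegral_add_right _ measurable_const,
      lintegral_const, measure_univ, mul_one]
  have hSm := poly_mu' p hp hN c μ m hμ
  have hmass := mass_le p hp hN μ m hμ
  calc ∫⁻ t, ‖AA P (ee t) x‖ₑ ^ p ∂μ ≤ ∫⁻ t, 2 ^ (p - 1) * (‖SS N c t‖ₑ ^ p + τ ^ p) ∂μ :=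
        lintegral_mono h1p
    _ = 2 ^ (p - 1) * ((∫⁻ t, ‖SS N c t‖ₑ ^ p ∂μ) + τ ^ p * μ univ) := by
        rw [lintegral_const_mul' _ _ (two_rpow_top _), lintegral_add_right _ measurable_const,
          lintegral_const]
    _ ≤ 2 ^ (p - 1) * (Q1 p * (N * m) * (2 ^ (p - 1) * (I + τ ^ p)) +
        (I + τ ^ p) * (Q1 p * (N * m))) := by
        gcongr
        · exact hSm.trans (by gcongr)
        · exact le_add_self
    _ = Q2 p * (N * m) * (I + τ ^ p) := by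
        unfold Q2
        ring

/-! ### averages over shells -/

theorem T_U' (K : ℕ) (P : ℕ → MvPolynomial (Fin n) ℂ) (z : ℂ) (x : E n) :
    T (Uu K P z) x = ∑ k ∈ Finset.range K, T (ev (P k)) x * z ^ k := by
  rw [T_eq]
  unfold Uu Aa
  have e : ∀ w, ph x w * ∑ k ∈ Finset.range K, ev (P k) w * z ^ k =
      ∑ k ∈ Finset.range K, z ^ k * (ph x w * ev (P k) w) := by
    intro w
    rw [Finset.mul_sum]
    refine Finset.sum_congr rfl fun k _ => ?_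
    ring
  simp_rw [e]
  rw [integral_finsetSum]
  · refine Finset.sum_congr rfl fun k _ => ?_
    rw [integral_const_mul, T_eq]
    ring
  · intro k _
    exact (int_ph_ev _ _).const_mul _

theorem T_C (c : ℂ) (P : MvPolynomial (Fin n) ℂ) (x : E n) : T (ev (C c * P)) x = c * T (ev P) x := by
  rw [T_eq, T_eq, ← integral_const_mul]
  refine integral_congr_ae (Eventually.of_forall fun w => ?_)
  simp only
  rw [ev_mul, ev_C]
  ring

theorem lim_w (hn : 2 ≤ n) (P : ℕ → MvPolynomial (Fin n) ℂ) (hP : ∀ k, Harm k (P k)) (L : ℝ)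
    (hL : ∀ k, N1 (P k) ≤ L) (ω : ℕ → ℕ → ℂ) (ωi : ℕ → ℂ) (h1 : ∀ D k, k < D → ‖ω D k‖ ≤ 1)
    (h2 : ∀ k, Tendsto (fun D => ω D k) atTop (𝓝 (ωi k))) (z : ℂ) (hz : ‖z‖ = 1) (x : E n) :
    Tendsto (fun D => T (Uu (D + 1) (fun k => C (ω (D + 1) k) * P k) z) x) atTop
      (𝓝 (AA (fun k => C (ωi k) * P k) z x)) := by
  have hL0 : 0 ≤ L := (N1_nonneg (P 0)).trans (hL 0)
  set f : ℕ → ℕ → ℂ := fun D k => if k < D + 1 then ω (D + 1) k * T (ev (P k)) x * z ^ k else 0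
    with hf
  have e1 : ∀ D, T (Uu (D + 1) (fun k => C (ω (D + 1) k) * P k) z) x = ∑' k, f D k := by
    intro D
    rw [T_U', tsum_eq_sum (s := Finset.range (D + 1))]
    · refine Finset.sum_congr rfl fun k hk => ?_
      rw [hf]
      simp only
      rw [if_pos (Finset.mem_range.1 hk), T_C]
    · intro b hb
      rw [hf]
      simp only
      rw [if_neg (fun h => hb (Finset.mem_range.2 h))]
  simp_rw [e1]
  unfold AA
  refine tendsto_tsum_of_dominated_convergence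
    (bound := fun k => ‖x‖ ^ k / k.factorial * (Real.exp ‖x‖ * L))
    ((Real.summable_pow_div_factorial ‖x‖).mul_right (Real.exp ‖x‖ * L)) (fun k => ?_)
    (Eventually.of_forall fun D k => ?_)
  · have h3 : Tendsto (fun D => ω (D + 1) k * T (ev (P k)) x * z ^ k) atTop
        (𝓝 (T (ev (C (ωi k) * P k)) x * z ^ k)) := by
      rw [T_C]
      exact ((((h2 k).comp (tendsto_add_atTop_nat 1)).mul_const _).mul_const _)
    refine h3.congr' ?_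
    filter_upwards [eventually_ge_atTop k] with D hD
    rw [hf]
    simp only
    rw [if_pos (by omega)]
  · rw [hf]
    simp only
    split_ifs with h
    · rw [mul_assoc, norm_mul]
      have h4 := term_le hn P hP L hL z hz x k
      have h5 := h1 (D + 1) k h
      calc ‖ω (D + 1) k‖ * ‖T (ev (P k)) x * z ^ k‖ ≤ 1 * ‖T (ev (P k)) x * z ^ k‖ := by gcongr
        _ ≤ _ := by rw [one_mul]; exact h4
    · rw [norm_zero]
      positivity

theorem poly_shell (n : ℕ) (hn : 2 ≤ n) (p : ℝ) (hp2 : 2 < p) (hp4 : p < 4) (δ : ℝ) (hδ : 0 < δ)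
    (hδ1 : δ ≤ 1) : ∃ C : ℝ, 0 < C ∧
    ∀ (K : ℕ) (P : ℕ → MvPolynomial (Fin n) ℂ), (∀ k, Harm k (P k)) →
    ∀ R : ℝ, 1 ≤ R → ∫⁻ t, (∫⁻ x in shell n R, ‖T (Uu K P (ee t)) x‖ₑ ^ p) ∂hm ≤
      ENNReal.ofReal (C * R ^ ((4 - p) / 2 + (δ - ((n : ℝ) - 2)) * ((p - 2) / 2))) *
        N4 K P ^ (p / 4) := by
  obtain ⟨C, hC, h⟩ := avg_p n hn p hp2 hp4 δ hδ hδ1
  have hc := cn2_pos
  refine ⟨(cn 2)⁻¹ * (C * (cn 2) ^ (p / 4)), by positivity, fun K P hP R hR => ?_⟩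
  have hR0 : 0 < R := by linarith
  have h1 := h K P hP R hR
  have hm1 : Measurable fun z : ℂ => ∫⁻ x in shell n R, ‖T (Uu K P z) x‖ₑ ^ p :=
    ((TU_joint hn K P hP).enorm.pow_const p).lintegral_prod_right'
      (ν := (volume : Measure (E n)).restrict (shell n R))
  rw [circ _ hm1, M4_eq, ENNReal.mul_rpow_of_nonneg _ _ (by linarith),
    ENNReal.ofReal_rpow_of_pos hc, ← mul_assoc (ENNReal.ofReal _), ← ENNReal.ofReal_mul (by positivity)] at h1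
  set I := ∫⁻ t, (∫⁻ x in shell n R, ‖T (Uu K P (ee t)) x‖ₑ ^ p) ∂hm with hI
  set e := (4 - p) / 2 + (δ - ((n : ℝ) - 2)) * ((p - 2) / 2) with he
  have h2 : ENNReal.ofReal (cn 2)⁻¹ * (ENNReal.ofReal (cn 2) * I) = I := by
    rw [← mul_assoc, ← ENNReal.ofReal_mul (by positivity), inv_mul_cancel₀ hc.ne',
      ENNReal.ofReal_one, one_mul]
  calc I = ENNReal.ofReal (cn 2)⁻¹ * (ENNReal.ofReal (cn 2) * I) := h2.symm
    _ ≤ ENNReal.ofReal (cn 2)⁻¹ * (ENNReal.ofReal (C * R ^ e * (cn 2) ^ (p / 4)) * N4 K P ^ (p / 4)) := by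
        gcongr
    _ = _ := by
        rw [← mul_assoc, ← ENNReal.ofReal_mul (by positivity)]
        congr 2
        ring

end Pool.Agent.Helper969.EX
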