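import Mathlib
import Pool.Agent.Helper969.EX.X4
set_option autoImplicit false

/-! The estimate on one shell for a measure of times. -/

namespace Pool.Agent.Helper969.EX

open MeasureTheory Measure Set Metric Complex MvPolynomial Filter
open Pool.Agent.H789R2.FR (E sg sg_finite sg_ae sg_inv T polar)
open Pool.Agent.H789R2.FR.L2 (ph norm_ph continuous_ph T_eq)
open Pool.Agent.Y251.HR (c2 c2_cont norm_c2 c2_smul shell shell_meas)
open Pool.Agent.Helper969.HW hiding hm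
open scoped RealInnerProductSpace ENNReal Topology

variable {n : ℕ}

theorem hee : Measurable fun q : UnitAddCircle × E n => (ee q.1, q.2) :=
  (ee_cont.comp continuous_fst).measurable.prodMk measurable_snd

theorem AA_meas (hn : 2 ≤ n) (P : ℕ → MvPolynomial (Fin n) ℂ) (hP : ∀ k, Harm k (P k)) (L : ℝ)
    (hL : ∀ k, N1 (P k) ≤ L) : Measurable fun q : UnitAddCircle × E n => AA P (ee q.1) q.2 := by
  have h1 : ∀ K : ℕ, Measurable fun q : UnitAddCircle × E n => T (Uu K P (ee q.1)) q.2 := by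
    intro K
    have h := (TU_joint hn K P hP).comp (hee (n := n))
    exact h
  refine measurable_of_tendsto_metrizable h1 (tendsto_pi_nhds.2 fun q => ?_)
  have h2 := (term_summable hn P hP L hL (ee q.1) (norm_ee q.1) q.2).hasSum.tendsto_sum_nat
  refine h2.congr fun K => ?_
  rw [T_U']

/-- the data of a one-sided family -/
structure Dat (P : ℕ → MvPolynomial (Fin n) ℂ) (L : ℝ) (B : ℝ≥0∞)
    (PD : ℕ → ℕ → MvPolynomial (Fin n) ℂ) : Prop where
  harm : ∀ k, Harm k (P k)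
  bd : ∀ k, N1 (P k) ≤ L
  harmD : ∀ D k, Harm k (PD D k)
  four : ∀ D, N4 (D + 1) (PD D) ≤ B
  lim : ∀ z : ℂ, ‖z‖ = 1 → ∀ x, Tendsto (fun D => T (Uu (D + 1) (PD D) z) x) atTop (𝓝 (AA P z x))

theorem shell_AA (n : ℕ) (hn : 2 ≤ n) (p : ℝ) (hp2 : 2 < p) (hp4 : p < 4) (δ : ℝ) (hδ : 0 < δ)
    (hδ1 : δ ≤ 1) : ∃ C : ℝ, 0 < C ∧
    ∀ (P : ℕ → MvPolynomial (Fin n) ℂ) (L : ℝ) (B : ℝ≥0∞) (PD : ℕ → ℕ → MvPolynomial (Fin n) ℂ),
    Dat P L B PD → ∀ R : ℝ, 1 ≤ R → ∫⁻ t, (∫⁻ x in shell n R, ‖AA P (ee t) x‖ₑ ^ p) ∂hm ≤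
      ENNReal.ofReal (C * R ^ ((4 - p) / 2 + (δ - ((n : ℝ) - 2)) * ((p - 2) / 2))) *
        B ^ (p / 4) := by
  obtain ⟨C, hC, h⟩ := poly_shell n hn p hp2 hp4 δ hδ hδ1
  refine ⟨C, hC, fun P L B PD hd R hR => ?_⟩
  have hm0 : ∀ D, Measurable fun q : UnitAddCircle × E n => ‖T (Uu (D + 1) (PD D) (ee q.1)) q.2‖ₑ ^ p :=
    fun D => ((TU_joint hn (D + 1) (PD D) (hd.harmD D)).comp hee).enorm.pow_const p
  have h1 : ∀ t, ∫⁻ x in shell n R, ‖AA P (ee t) x‖ₑ ^ p ≤
      liminf (fun D => ∫⁻ x in shell n R, ‖T (Uu (D + 1) (PD D) (ee t)) x‖ₑ ^ p) atTop := by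
    intro t
    calc ∫⁻ x in shell n R, ‖AA P (ee t) x‖ₑ ^ p =
        ∫⁻ x in shell n R, liminf (fun D => ‖T (Uu (D + 1) (PD D) (ee t)) x‖ₑ ^ p) atTop := by
          refine lintegral_congr fun x => ?_
          have h2 : Tendsto (fun D => ‖T (Uu (D + 1) (PD D) (ee t)) x‖ₑ ^ p) atTop
              (𝓝 (‖AA P (ee t) x‖ₑ ^ p)) :=
            (ENNReal.continuous_rpow_const.tendsto _).comp (hd.lim _ (norm_ee t) x).enorm
          exact h2.liminf_eq.symm
      _ ≤ _ := by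
          refine lintegral_liminf_le fun D => ?_
          have h2 := (hm0 D).comp (measurable_prodMk_left (x := t))
          exact h2
  calc ∫⁻ t, (∫⁻ x in shell n R, ‖AA P (ee t) x‖ₑ ^ p) ∂hm
      ≤ ∫⁻ t, liminf (fun D => ∫⁻ x in shell n R, ‖T (Uu (D + 1) (PD D) (ee t)) x‖ₑ ^ p) atTop ∂hm :=
        lintegral_mono h1
    _ ≤ liminf (fun D => ∫⁻ t, (∫⁻ x in shell n R, ‖T (Uu (D + 1) (PD D) (ee t)) x‖ₑ ^ p) ∂hm)
        atTop := by
        refine lintegral_liminf_le fun D => ?_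
        exact (hm0 D).lintegral_prod_right' (ν := (volume : Measure (E n)).restrict (shell n R))
    _ ≤ _ := by
        refine liminf_le_of_frequently_le' (Frequently.of_forall fun D => ?_)
        refine (h (D + 1) (PD D) (hd.harmD D) R hR).trans ?_
        have := hd.four D
        have hp0 : 0 ≤ p / 4 := by linarith
        gcongr

theorem exp_half (R : ℝ) (N : ℕ) (hN : 32 * R ≤ N) : Real.exp R * (1 / 2) ^ N ≤ 1 := by
  have h1 : Real.exp R ≤ Real.exp (N * (1 / 32)) := Real.exp_le_exp.2 (by linarith)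
  have h2 : Real.exp (N * (1 / 32)) = Real.exp (1 / 32) ^ N := Real.exp_nat_mul _ _
  have h3 : Real.exp (1 / 32) ≤ 2 := by
    have h4 : Real.exp (1 / 32) ≤ Real.exp (1 / 2) := Real.exp_le_exp.2 (by norm_num)
    have h5 : Real.exp (1 / 2) ^ 2 = Real.exp 1 := by
      rw [← Real.exp_nat_mul]
      norm_num
    have h6 := Real.exp_one_lt_d9
    have h7 : 0 < Real.exp (1 / 2) := Real.exp_pos _
    nlinarith
  calc Real.exp R * (1 / 2) ^ N ≤ Real.exp (1 / 32) ^ N * (1 / 2) ^ N := by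
        rw [← h2]; gcongr
    _ = (Real.exp (1 / 32) / 2) ^ N := by rw [← mul_pow]; congr 1; ring
    _ ≤ 1 := by
        apply pow_le_one₀ (by positivity)
        rw [div_le_one (by norm_num)]
        exact h3

theorem shell_vol (R : ℝ) (hR : 1 ≤ R) : (volume : Measure (E n)) (shell n R) ≤
    ENNReal.ofReal ((2 * R) ^ n * (volume : Measure (E n)).real (ball 0 1)) := by
  have h1 : shell n R ⊆ closedBall (0 : E n) (2 * R) := by
    intro x hx
    rw [mem_closedBall_zero_iff]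
    exact hx.2
  refine (measure_mono h1).trans ?_
  rw [Measure.addHaar_closedBall _ _ (by linarith), ENNReal.ofReal_mul (by positivity),
    finrank_euclideanSpace, Fintype.card_fin, measureReal_def, ENNReal.ofReal_toReal]
  exact measure_ball_lt_top.ne

/-- **one shell, a measure of times** -/
theorem shell_mu (n : ℕ) (hn : 2 ≤ n) (p : ℝ) (hp2 : 2 < p) (hp4 : p < 4) (δ : ℝ) (hδ : 0 < δ)
    (hδ1 : δ ≤ 1) : ∃ C : ℝ, 0 < C ∧
    ∀ (P : ℕ → MvPolynomial (Fin n) ℂ) (L : ℝ) (B : ℝ≥0∞) (PD : ℕ → ℕ → MvPolynomial (Fin n) ℂ),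
    Dat P L B PD → ∀ (μ : Measure UnitAddCircle) [IsFiniteMeasure μ] (R : ℝ), 1 ≤ R →
    ∀ m : ℝ≥0∞, (∀ t, μ (closedBall t (1 / R)) ≤ m) →
    ∫⁻ t, (∫⁻ x in shell n R, ‖AA P (ee t) x‖ₑ ^ p) ∂μ ≤
      ENNReal.ofReal (C * R ^ (1 + ((4 - p) / 2 + (δ - ((n : ℝ) - 2)) * ((p - 2) / 2)))) * m *
        (B ^ (p / 4) + ENNReal.ofReal L ^ p) := by
  obtain ⟨C, hC, h⟩ := shell_AA n hn p hp2 hp4 δ hδ hδ1
  set e := (4 - p) / 2 + (δ - ((n : ℝ) - 2)) * ((p - 2) / 2) with he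
  set V := (volume : Measure (E n)).real (ball 0 1) with hV
  have hV0 : 0 ≤ V := measureReal_nonneg
  set Q := (Q2 p).toReal with hQ
  have hQ0 : 0 ≤ Q := ENNReal.toReal_nonneg
  have hQe : Q2 p = ENNReal.ofReal Q := by rw [hQ, ENNReal.ofReal_toReal (Q2_top p)]
  set C1 := C + 2 ^ p * (2 ^ n * V * (2 * n).factorial) with hC1
  have hC10 : 0 < C1 := by positivity
  refine ⟨(Q + 1) * 33 * C1, by positivity, ?_⟩
  intro P L B PD hd μ _ R hR m hμ
  have hn' : (2 : ℝ) ≤ n := by exact_mod_cast hn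
  have hR0 : 0 < R := by linarith
  have hL0 : 0 ≤ L := (N1_nonneg (P 0)).trans (hd.bd 0)
  have hp0 : 0 < p := by linarith
  set N : ℕ := ⌈32 * R⌉₊ with hN
  have hN1 : 32 * R ≤ N := Nat.le_ceil _
  have hN2 : (N : ℝ) ≤ 33 * R := by
    have := Nat.ceil_lt_add_one (a := 32 * R) (by positivity)
    rw [← hN] at this
    linarith
  have hNpos : 0 < N := by
    rw [hN, Nat.ceil_pos]
    positivity
  have hNr : (0 : ℝ) < N := by exact_mod_cast hNpos
  have hμN : ∀ t, μ (closedBall t (1 / N)) ≤ m := by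
    intro t
    refine le_trans (measure_mono (closedBall_subset_closedBall ?_)) (hμ t)
    apply one_div_le_one_div_of_le hR0
    linarith
  set τ : ℝ≥0∞ := ENNReal.ofReal (2 * (1 / 2) ^ N * L) with hτ
  have hAm := AA_meas hn P hd.harm L hd.bd
  have hAp : Measurable fun q : UnitAddCircle × E n => ‖AA P (ee q.1) q.2‖ₑ ^ p :=
    hAm.enorm.pow_const p
  have hsw : ∀ ν : Measure UnitAddCircle, IsFiniteMeasure ν →
      ∫⁻ t, (∫⁻ x in shell n R, ‖AA P (ee t) x‖ₑ ^ p) ∂ν =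
      ∫⁻ x in shell n R, (∫⁻ t, ‖AA P (ee t) x‖ₑ ^ p ∂ν) := by
    intro ν hν
    exact lintegral_lintegral_swap (μ := ν) (ν := (volume : Measure (E n)).restrict (shell n R))
      (f := fun t x => ‖AA P (ee t) x‖ₑ ^ p) hAp.aemeasurable
  have hinner : Measurable fun x : E n => ∫⁻ t, ‖AA P (ee t) x‖ₑ ^ p ∂hm :=
    (hAp.comp measurable_swap).lintegral_prod_right' (ν := hm)
  have h1 : ∫⁻ t, (∫⁻ x in shell n R, ‖AA P (ee t) x‖ₑ ^ p) ∂μ ≤ Q2 p * (N * m) *
      ((∫⁻ t, (∫⁻ x in shell n R, ‖AA P (ee t) x‖ₑ ^ p) ∂hm) + τ ^ p * volume (shell n R)) := by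
    rw [hsw μ inferInstance, hsw hm inferInstance]
    calc ∫⁻ x in shell n R, (∫⁻ t, ‖AA P (ee t) x‖ₑ ^ p ∂μ)
        ≤ ∫⁻ x in shell n R, Q2 p * (N * m) * ((∫⁻ t, ‖AA P (ee t) x‖ₑ ^ p ∂hm) + τ ^ p) := by
          refine setLIntegral_mono' (shell_meas R) fun x hx => ?_
          refine pt_mu hn P hd.harm L hd.bd p (by linarith) μ hNpos m hμN x ?_
          have := hx.2
          linarith
      _ = _ := by
          rw [lintegral_const_mul _ (hinner.add_const _), lintegral_add_right _ measurable_const,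
            lintegral_const, Measure.restrict_apply_univ]
  have h2 := h P L B PD hd R hR
  have hre : R ^ n ≤ (2 * n).factorial * Real.exp R * R ^ e := by
    have he1 : -(n : ℝ) ≤ e := by
      rw [he]
      nlinarith
    have h3 : R ^ (2 * n) / (2 * n).factorial ≤ Real.exp R :=
      Real.pow_div_factorial_le_exp R hR0.le (2 * n)
    have hf : (0 : ℝ) < (2 * n).factorial := by positivity
    rw [div_le_iff₀ hf] at h3
    have h4 : R ^ (-(n : ℝ)) ≤ R ^ e := Real.rpow_le_rpow_of_exponent_le hR he1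
    have h5 : R ^ n = R ^ (2 * n) * R ^ (-(n : ℝ)) := by
      rw [← Real.rpow_natCast, ← Real.rpow_natCast, ← Real.rpow_add hR0]
      congr 1
      push_cast
      ring
    rw [h5]
    have h6 : 0 ≤ R ^ (-(n : ℝ)) := by positivity
    calc R ^ (2 * n) * R ^ (-(n : ℝ)) ≤ (Real.exp R * (2 * n).factorial) * R ^ e := by gcongr
      _ = _ := by ring
  have h3 : τ ^ p * volume (shell n R) ≤
      ENNReal.ofReal (2 ^ p * (2 ^ n * V * (2 * n).factorial) * R ^ e) * ENNReal.ofReal L ^ p := by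
    have h4 : τ ^ p = ENNReal.ofReal ((2 * (1 / 2) ^ N * L) ^ p) := by
      rw [hτ, ENNReal.ofReal_rpow_of_nonneg (by positivity) hp0.le]
    rw [h4, ENNReal.ofReal_rpow_of_nonneg hL0 hp0.le, ← ENNReal.ofReal_mul (by positivity)]
    refine (mul_le_mul' le_rfl (shell_vol R hR)).trans ?_
    rw [← ENNReal.ofReal_mul (by positivity)]
    apply ENNReal.ofReal_le_ofReal
    rw [← hV, Real.mul_rpow (by positivity) hL0, Real.mul_rpow (by positivity) (by positivity)]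
    have h5 : (((1 : ℝ) / 2) ^ N) ^ p ≤ (1 / 2) ^ N := by
      have h6 : ((1 : ℝ) / 2) ^ N ≤ 1 := pow_le_one₀ (by norm_num) (by norm_num)
      calc (((1 : ℝ) / 2) ^ N) ^ p ≤ (((1 : ℝ) / 2) ^ N) ^ (1 : ℝ) :=
            Real.rpow_le_rpow_of_exponent_ge (by positivity) h6 (by linarith)
        _ = _ := Real.rpow_one _
    have h7 := exp_half R N hN1
    have hLp : 0 ≤ L ^ p := Real.rpow_nonneg hL0 p
    have hRe : 0 ≤ R ^ e := by positivity
    calc 2 ^ p * (((1 : ℝ) / 2) ^ N) ^ p * L ^ p * ((2 * R) ^ n * V)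
        ≤ 2 ^ p * (1 / 2) ^ N * L ^ p * ((2 * R) ^ n * V) := by gcongr
      _ = 2 ^ p * L ^ p * (2 ^ n * V) * ((1 / 2) ^ N * R ^ n) := by rw [mul_pow]; ring
      _ ≤ 2 ^ p * L ^ p * (2 ^ n * V) * ((1 / 2) ^ N * ((2 * n).factorial * Real.exp R * R ^ e)) := by
          gcongr
      _ = 2 ^ p * L ^ p * (2 ^ n * V) * ((2 * n).factorial * R ^ e) * (Real.exp R * (1 / 2) ^ N) := by
          ring
      _ ≤ 2 ^ p * L ^ p * (2 ^ n * V) * ((2 * n).factorial * R ^ e) * 1 := by gcongr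
      _ = _ := by ring
  set B' := B ^ (p / 4) with hB'
  set L' := ENNReal.ofReal L ^ p with hL'
  have hRe0 : 0 ≤ R ^ e := by positivity
  have h2' : ∫⁻ t, (∫⁻ x in shell n R, ‖AA P (ee t) x‖ₑ ^ p) ∂hm ≤
      ENNReal.ofReal (C1 * R ^ e) * B' := by
    refine h2.trans (mul_le_mul' (ENNReal.ofReal_le_ofReal ?_) le_rfl)
    have h9 : C ≤ C1 := by
      rw [hC1]
      have : 0 ≤ 2 ^ p * (2 ^ n * V * ((2 * n).factorial : ℝ)) := by positivity
      linarith
    exact mul_le_mul_of_nonneg_right h9 hRe0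
  have h3' : τ ^ p * volume (shell n R) ≤ ENNReal.ofReal (C1 * R ^ e) * L' := by
    refine h3.trans (mul_le_mul' (ENNReal.ofReal_le_ofReal ?_) le_rfl)
    have h9 : 2 ^ p * (2 ^ n * V * ((2 * n).factorial : ℝ)) ≤ C1 := by
      rw [hC1]
      linarith
    exact mul_le_mul_of_nonneg_right h9 hRe0
  calc ∫⁻ t, (∫⁻ x in shell n R, ‖AA P (ee t) x‖ₑ ^ p) ∂μ
      ≤ Q2 p * (N * m) *
      ((∫⁻ t, (∫⁻ x in shell n R, ‖AA P (ee t) x‖ₑ ^ p) ∂hm) + τ ^ p * volume (shell n R)) := h1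
    _ ≤ ENNReal.ofReal (Q + 1) * (ENNReal.ofReal (33 * R) * m) *
      (ENNReal.ofReal (C1 * R ^ e) * B' + ENNReal.ofReal (C1 * R ^ e) * L') := by
        refine mul_le_mul' (mul_le_mul' ?_ (mul_le_mul' ?_ le_rfl)) (add_le_add h2' h3')
        · rw [hQe]
          exact ENNReal.ofReal_le_ofReal (by linarith)
        · rw [← ENNReal.ofReal_natCast]
          exact ENNReal.ofReal_le_ofReal hN2
    _ = _ := by
        rw [← mul_add]
        have e1 : (Q + 1) * 33 * C1 * R ^ (1 + e) = (Q + 1) * (33 * R) * (C1 * R ^ e) := by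
          rw [Real.rpow_add hR0, Real.rpow_one]
          ring
        have e2 : ENNReal.ofReal ((Q + 1) * (33 * R) * (C1 * R ^ e)) =
            ENNReal.ofReal (Q + 1) * ENNReal.ofReal (33 * R) * ENNReal.ofReal (C1 * R ^ e) := by
          rw [ENNReal.ofReal_mul (by positivity), ENNReal.ofReal_mul (by positivity)]
        rw [e1, e2]
        ring

end Pool.Agent.Helper969.EX
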