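import Mathlib
import Pool.Agent.Helper969.HW.F7
import Pool.Agent.Helper969.EX.X5
set_option autoImplicit false

/-! From a family to its two one-sided parts. -/

namespace Pool.Agent.Helper969.EX

open MeasureTheory Measure Set Metric Complex MvPolynomial Filter
open Pool.Agent.H789R2.FR (E sg sg_finite sg_ae sg_inv T polar)
open Pool.Agent.H789R2.FR.L2 (ph norm_ph continuous_ph T_eq)
open Pool.Agent.Y251.HR (sig sft sft_eq scale_int shell shell_meas)
open Pool.Agent.Helper969.HW hiding hm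
open scoped RealInnerProductSpace ENNReal ComplexConjugate Topology

variable {n : ℕ}

/-- the coefficients of a family -/
structure Fam (s : ℕ) (G : UnitAddCircle → sphere (0 : E n) 1 → ℂ)
    (P Q : ℕ → MvPolynomial (Fin n) ℂ) : Prop where
  meas : Measurable (Function.uncurry G)
  hP : ∀ k, Harm k (P k)
  hQ : ∀ k, Harm k (Q k)
  all : ∀ᵐ x ∂(sig n), (∀ k : ℕ, fourierCoeff (fun t => G t x) k = ev (P k) (x : E n)) ∧
      (∀ k : ℕ, fourierCoeff (fun t => G t x) (-((s + k : ℕ) : ℤ)) = ev (Q k) (x : E n)) ∧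
      (∀ k : ℕ, 0 < k → k < s → fourierCoeff (fun t => G t x) (-(k : ℤ)) = 0)

theorem fam_of (s : ℕ) (G : UnitAddCircle → sphere (0 : E n) 1 → ℂ)
    (hGm : Measurable (Function.uncurry G)) (hW : Wave s G) : ∃ P Q, Fam s G P Q := by
  choose P hP hPc using hW.pos
  choose Q hQ hQc using hW.neg
  refine ⟨P, Q, hGm, hP, hQ, ?_⟩
  have h1 := ae_all_iff.2 hPc
  have h2 := ae_all_iff.2 hQc
  have h3 : ∀ᵐ x ∂(sig n), ∀ k : ℕ, 0 < k → k < s →
      fourierCoeff (fun t => G t x) (-(k : ℤ)) = 0 := by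
    rw [ae_all_iff]
    intro k
    by_cases hk : 0 < k ∧ k < s
    · filter_upwards [hW.gap k hk.1 hk.2] with x hx _ _
      exact hx
    · exact Eventually.of_forall fun x h1 h2 => absurd ⟨h1, h2⟩ hk
  filter_upwards [h1, h2, h3] with x x1 x2 x3
  exact ⟨x1, x2, x3⟩

/-- fourth moment -/
noncomputable def G4 (G : UnitAddCircle → sphere (0 : E n) 1 → ℂ) : ℝ≥0∞ :=
  ∫⁻ t, (∫⁻ x, ‖G t x‖ₑ ^ 4 ∂(sig n)) ∂hm

/-- first moment -/
noncomputable def G1 (G : UnitAddCircle → sphere (0 : E n) 1 → ℂ) : ℝ≥0∞ :=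
  ∫⁻ x, (∫⁻ t, ‖G t x‖ₑ ∂hm) ∂(sig n)

theorem V4_le {s : ℕ} {G : UnitAddCircle → sphere (0 : E n) 1 → ℂ}
    {P Q : ℕ → MvPolynomial (Fin n) ℂ} (h : Fam s G P Q) (hB : G4 G ≠ ⊤) (D : ℕ) :
    V4 s (D + 1) (Pd (D + 1) P) (Qd s (D + 1) Q) ≤ G4 G := by
  have hGm := h.meas
  have hGx : ∀ x, Measurable fun t => G t x := fun x => hGm.comp measurable_prodMk_right
  have hG4m := hGm.enorm.pow_const 4
  have hsw4 : ∫⁻ t, (∫⁻ x, ‖G t x‖ₑ ^ 4 ∂(sig n)) ∂hm =
      ∫⁻ x, (∫⁻ t, ‖G t x‖ₑ ^ 4 ∂hm) ∂(sig n) :=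
    lintegral_lintegral_swap hG4m.aemeasurable
  have hx4 : ∀ᵐ x ∂(sig n), ∫⁻ t, ‖G t x‖ₑ ^ 4 ∂hm < ⊤ := by
    refine ae_lt_top ?_ ?_
    · exact (hG4m.comp measurable_swap).lintegral_prod_right' (ν := hm)
    · rw [← hsw4]
      exact hB
  have hfm : ∀ᵐ x ∂(sig n), ∀ D t, WD s D P Q t x = fm D (fun t => G t x) t := by
    filter_upwards [h.all] with x hx D t
    exact (fm_VV s D P Q (fun t => G t x) (x : E n) hx.1 hx.2.1 hx.2.2 t).symm
  have hWm := fun D => WD_meas (n := n) s D P Q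
  rw [WD_four]
  unfold G4
  rw [hsw4, lintegral_lintegral_swap ((hWm (D + 1)).enorm.pow_const 4).aemeasurable]
  refine lintegral_mono_ae ?_
  filter_upwards [hfm, hx4] with x hx hx4'
  have h1 := fm_contr (Nat.succ_pos D) (fun t => G t x)
    (int_of_four hm _ (hGx x).aestronglyMeasurable hx4') 4 (by norm_num)
  simp only [ENNReal.rpow_ofNat] at h1
  refine le_trans (le_of_eq ?_) h1
  refine lintegral_congr fun t => ?_
  rw [hx (D + 1) t]

theorem coeff_le (g : UnitAddCircle → ℂ) (j : ℤ) : ‖fourierCoeff g j‖ₑ ≤ ∫⁻ t, ‖g t‖ₑ ∂hm := by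
  unfold fourierCoeff
  refine (enorm_integral_le_lintegral_enorm _).trans (le_of_eq ?_)
  refine lintegral_congr fun t => ?_
  rw [enorm_smul, ← ofReal_norm ((fourier (-j) t : ℂ)), fourier_apply, Circle.norm_coe,
    ENNReal.ofReal_one, one_mul]

theorem N1_le (P : MvPolynomial (Fin n) ℂ) (G : UnitAddCircle → sphere (0 : E n) 1 → ℂ)
    (hG : G1 G ≠ ⊤) (j : ℤ)
    (h : ∀ᵐ x ∂(sig n), fourierCoeff (fun t => G t x) j = ev P (x : E n)) :
    N1 P ≤ (G1 G).toReal := by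
  have hfin := sg_finite n
  unfold N1
  rw [integral_norm_eq_lintegral_enorm (ev_cont P).aestronglyMeasurable]
  refine ENNReal.toReal_mono hG ?_
  simp only [sg]
  rw [lintegral_map (ev_cont P).measurable.enorm measurable_subtype_coe]
  refine lintegral_mono_ae ?_
  filter_upwards [h] with x hx
  have h1 := coeff_le (fun t => G t x) j
  rw [hx] at h1
  exact h1

/-- removal of the double count at index zero -/
noncomputable def oi (s k : ℕ) : ℂ := if 0 < k + s then 1 else 0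

noncomputable def Qt (s : ℕ) (Q : ℕ → MvPolynomial (Fin n) ℂ) (k : ℕ) : MvPolynomial (Fin n) ℂ :=
  C (oi s k) * Q k

theorem N1_C (c : ℂ) (hc : ‖c‖ ≤ 1) (P : MvPolynomial (Fin n) ℂ) : N1 (C c * P) ≤ N1 P := by
  have hfin := sg_finite n
  unfold N1
  refine integral_mono (int_ev _).norm (int_ev _).norm fun w => ?_
  simp only
  rw [ev_mul, ev_C, norm_mul]
  calc ‖c‖ * ‖ev P w‖ ≤ 1 * ‖ev P w‖ := by gcongr
    _ = _ := one_mul _

theorem oi_le (s k : ℕ) : ‖oi s k‖ ≤ 1 := by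
  unfold oi
  split_ifs <;> simp

theorem tendsto_div (a : ℝ) : Tendsto (fun D : ℕ => ((1 - a / D : ℝ) : ℂ)) atTop (𝓝 1) := by
  have h1 : Tendsto (fun D : ℕ => a / (D : ℝ)) atTop (𝓝 0) := tendsto_const_div_atTop_nhds_zero_nat a
  have h2 : Tendsto (fun D : ℕ => (1 - a / D : ℝ)) atTop (𝓝 (1 - 0)) := tendsto_const_nhds.sub h1
  rw [sub_zero] at h2
  have h3 := (Complex.continuous_ofReal.tendsto 1).comp h2
  rw [Complex.ofReal_one] at h3
  exact h3

theorem weight_le (a : ℕ) (D : ℕ) (h : a ≤ D) : ‖((1 - (a : ℝ) / D : ℝ) : ℂ)‖ ≤ 1 := by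
  rw [Complex.norm_real, Real.norm_eq_abs, abs_le]
  have h1 : (0 : ℝ) ≤ (a : ℝ) / D := by positivity
  have h2 : (a : ℝ) / D ≤ 1 := by
    rcases Nat.eq_zero_or_pos D with h0 | h0
    · subst h0
      simp
    · rw [div_le_one (by exact_mod_cast h0)]
      exact_mod_cast h
  constructor <;> linarith

theorem dat_P (hn : 2 ≤ n) {s : ℕ} {G : UnitAddCircle → sphere (0 : E n) 1 → ℂ}
    {P Q : ℕ → MvPolynomial (Fin n) ℂ} (h : Fam s G P Q) (hB : G4 G ≠ ⊤) (hG : G1 G ≠ ⊤) :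
    Dat P (G1 G).toReal (ENNReal.ofReal 6152 * G4 G) (fun D => Pd (D + 1) P) := by
  have hbd : ∀ k, N1 (P k) ≤ (G1 G).toReal := by
    intro k
    refine N1_le (P k) G hG k ?_
    filter_upwards [h.all] with x hx
    exact hx.1 k
  refine ⟨h.hP, hbd, fun D k => Pd_harm _ P h.hP k, fun D => ?_, fun z hz x => ?_⟩
  · have h1 := (riesz_V s (D + 1) (Pd (D + 1) P) (Qd s (D + 1) Q) (Qd_zero s _ Q)).1
    refine h1.trans ?_
    have := V4_le h hB D
    gcongr
  · have h1 := lim_w hn P h.hP _ hbd aw (fun _ => 1) (fun D k hk => ?_) (fun k => ?_) z hz x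
    · simp only [C_1, one_mul] at h1
      exact h1
    · unfold aw
      exact weight_le k D hk.le
    · unfold aw
      exact tendsto_div k

theorem dat_Q (hn : 2 ≤ n) {s : ℕ} {G : UnitAddCircle → sphere (0 : E n) 1 → ℂ}
    {P Q : ℕ → MvPolynomial (Fin n) ℂ} (h : Fam s G P Q) (hB : G4 G ≠ ⊤) (hG : G1 G ≠ ⊤) :
    Dat (Qt s Q) (G1 G).toReal (ENNReal.ofReal 6152 * G4 G) (fun D => Qd s (D + 1) Q) := by
  have hbd : ∀ k, N1 (Q k) ≤ (G1 G).toReal := by
    intro k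
    refine N1_le (Q k) G hG (-((s + k : ℕ) : ℤ)) ?_
    filter_upwards [h.all] with x hx
    exact hx.2.1 k
  refine ⟨fun k => (h.hQ k).smul _, fun k => (N1_C _ (oi_le s k) _).trans (hbd k),
    fun D k => Qd_harm _ _ Q h.hQ k, fun D => ?_, fun z hz x => ?_⟩
  · have h1 := (riesz_V s (D + 1) (Pd (D + 1) P) (Qd s (D + 1) Q) (Qd_zero s _ Q)).2
    refine h1.trans ?_
    have := V4_le h hB D
    gcongr
  · refine lim_w hn Q h.hQ _ hbd (bw s) (oi s) (fun D k hk => ?_) (fun k => ?_) z hz x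
    · unfold bw
      split_ifs with h5
      · exact weight_le (k + s) D h5.1.le
      · simp
    · unfold oi
      by_cases h5 : 0 < k + s
      · rw [if_pos h5]
        refine (tendsto_div ((k + s : ℕ) : ℝ)).congr' ?_
        filter_upwards [eventually_gt_atTop (k + s)] with D hD
        unfold bw
        rw [if_pos ⟨hD, h5⟩]
      · rw [if_neg h5]
        refine tendsto_const_nhds.congr fun D => ?_
        unfold bw
        rw [if_neg (fun h6 => h5 h6.2)]

end Pool.Agent.Helper969.EX
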