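import Mathlib
import Pool.Agent.Helper969.EX.X6
set_option autoImplicit false

/-! The transform of a family at every time. -/

namespace Pool.Agent.Helper969.EX

open MeasureTheory Measure Set Metric Complex MvPolynomial Filter
open Pool.Agent.H789R2.FR (E sg sg_finite sg_ae sg_inv T polar)
open Pool.Agent.H789R2.FR.L2 (ph norm_ph continuous_ph T_eq)
open Pool.Agent.Y251.HR (sig sft sft_eq scale_int shell shell_meas)
open Pool.Agent.Helper969.HW hiding hm
open scoped RealInnerProductSpace ENNReal ComplexConjugate Topology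

variable {n : ℕ}

theorem G_int {G : UnitAddCircle → sphere (0 : E n) 1 → ℂ} (hGm : Measurable (Function.uncurry G))
    (hB : G4 G ≠ ⊤) : Integrable (Function.uncurry G) (hm.prod (sig n)) := by
  refine int_of_four _ _ hGm.aestronglyMeasurable ?_
  rw [lintegral_prod _ (hGm.enorm.pow_const 4).aemeasurable]
  exact lt_top_iff_ne_top.2 hB

theorem G1_top {G : UnitAddCircle → sphere (0 : E n) 1 → ℂ} (hGm : Measurable (Function.uncurry G))
    (hB : G4 G ≠ ⊤) : G1 G ≠ ⊤ := by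
  have h1 := (G_int hGm hB).2
  rw [HasFiniteIntegral, lintegral_prod _ hGm.enorm.aemeasurable] at h1
  unfold G1
  rw [← lintegral_lintegral_swap (μ := hm) (ν := sig n) (f := fun t x => ‖G t x‖ₑ)
    hGm.enorm.aemeasurable]
  exact h1.ne

/-- the character -/
noncomputable def ch (ξ : E n) (x : sphere (0 : E n) 1) : ℂ :=
  Complex.exp (-(2 * Real.pi * ⟪(x : E n), ξ⟫ : ℝ) * I)

theorem ch_cont (ξ : E n) : Continuous (ch ξ) := by
  unfold ch
  fun_prop

theorem coefF {G : UnitAddCircle → sphere (0 : E n) 1 → ℂ} (hGm : Measurable (Function.uncurry G))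
    (hB : G4 G ≠ ⊤) (ξ : E n) (j : ℤ) : fourierCoeff (fun t => sft (G t) ξ) j =
      ∫ x, ch ξ x * fourierCoeff (fun t => G t x) j ∂(sig n) := by
  unfold fourierCoeff sft
  have hi := G_int hGm hB
  have h1 : Integrable (Function.uncurry fun (t : UnitAddCircle) (x : sphere (0 : E n) 1) =>
      (fourier (-j) t : ℂ) * (ch ξ x * G t x)) (hm.prod (sig n)) := by
    have hc : Continuous fun p : UnitAddCircle × sphere (0 : E n) 1 =>
        (fourier (-j) p.1 : ℂ) * ch ξ p.2 := by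
      have := ch_cont (n := n) ξ
      fun_prop
    have h2 := hi.bdd_mul hc.measurable.aestronglyMeasurable (c := 1)
      (Eventually.of_forall fun p => by
        rw [norm_mul, fourier_apply, Circle.norm_coe, one_mul]
        exact (ph_sphere_norm ξ p.2).le)
    refine h2.congr (Eventually.of_forall fun p => ?_)
    simp only [Function.uncurry]
    ring
  have e1 : ∫ t, (fourier (-j) t : ℂ) • ∫ x, Complex.exp (-(2 * Real.pi * ⟪(x : E n), ξ⟫ : ℝ) * I) *
      G t x ∂(sig n) ∂hm = ∫ t, (∫ x, (fourier (-j) t : ℂ) * (ch ξ x * G t x) ∂(sig n)) ∂hm := by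
    refine integral_congr_ae (Eventually.of_forall fun t => ?_)
    simp only [smul_eq_mul]
    rw [← integral_const_mul]
    rfl
  have e2 : ∀ x, ch ξ x * ∫ t, (fourier (-j) t : ℂ) • G t x ∂hm =
      ∫ t, (fourier (-j) t : ℂ) * (ch ξ x * G t x) ∂hm := by
    intro x
    rw [← integral_const_mul]
    refine integral_congr_ae (Eventually.of_forall fun t => ?_)
    simp only [smul_eq_mul]
    ring
  rw [e1]
  simp_rw [e2]
  exact integral_integral_swap h1

theorem hs_congr {f g : ℕ → ℂ} {a : ℂ} (h : HasSum f a) (e : ∀ k, f k = g k) : HasSum g a := by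
  have e1 : f = g := funext e
  rw [← e1]
  exact h

theorem coefP {s : ℕ} {G : UnitAddCircle → sphere (0 : E n) 1 → ℂ}
    {P Q : ℕ → MvPolynomial (Fin n) ℂ} (h : Fam s G P Q) (hB : G4 G ≠ ⊤) (ξ : E n) (k : ℕ) :
    fourierCoeff (fun t => sft (G t) ξ) k = T (ev (P k)) ((2 * Real.pi) • ξ) := by
  have e := sft_eq (n := n) (fun x => ev (P k) (x : E n)) (ev (P k)) (ev_cont (P k)).measurable
    (Eventually.of_forall fun _ => rfl) ξ
  rw [coefF h.meas hB, ← e]
  unfold sft
  refine integral_congr_ae ?_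
  filter_upwards [h.all] with x hx
  rw [hx.1 k]
  rfl

theorem coefQ {s : ℕ} {G : UnitAddCircle → sphere (0 : E n) 1 → ℂ}
    {P Q : ℕ → MvPolynomial (Fin n) ℂ} (h : Fam s G P Q) (hB : G4 G ≠ ⊤) (ξ : E n) (k : ℕ) :
    fourierCoeff (fun t => sft (G t) ξ) (-((s + k : ℕ) : ℤ)) = T (ev (Q k)) ((2 * Real.pi) • ξ) := by
  have e := sft_eq (n := n) (fun x => ev (Q k) (x : E n)) (ev (Q k)) (ev_cont (Q k)).measurable
    (Eventually.of_forall fun _ => rfl) ξ
  rw [coefF h.meas hB, ← e]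
  unfold sft
  refine integral_congr_ae ?_
  filter_upwards [h.all] with x hx
  rw [hx.2.1 k]
  rfl

theorem coef0 {s : ℕ} {G : UnitAddCircle → sphere (0 : E n) 1 → ℂ}
    {P Q : ℕ → MvPolynomial (Fin n) ℂ} (h : Fam s G P Q) (hB : G4 G ≠ ⊤) (ξ : E n) (k : ℕ)
    (h0 : 0 < k) (hk : k < s) : fourierCoeff (fun t => sft (G t) ξ) (-(k : ℤ)) = 0 := by
  rw [coefF h.meas hB]
  have e : ∫ x, ch ξ x * fourierCoeff (fun t => G t x) (-(k : ℤ)) ∂(sig n) =
      ∫ _x, (0 : ℂ) ∂(sig n) := by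
    refine integral_congr_ae ?_
    filter_upwards [h.all] with x hx
    rw [hx.2.2 k h0 hk, mul_zero]
  rw [e, integral_zero]

/-- **the transform at every time** -/
theorem F_eq (hn : 2 ≤ n) {s : ℕ} {G : UnitAddCircle → sphere (0 : E n) 1 → ℂ}
    {P Q : ℕ → MvPolynomial (Fin n) ℂ} (h : Fam s G P Q) (hB : G4 G ≠ ⊤) (ξ : E n)
    (hc : Continuous fun t => sft (G t) ξ) (t : UnitAddCircle) :
    sft (G t) ξ = AA P (ee t) ((2 * Real.pi) • ξ) +
      conj (ee t) ^ s * AA (Qt s Q) (conj (ee t)) ((2 * Real.pi) • ξ) := by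
  have hG := G1_top h.meas hB
  have dP := dat_P hn h hB hG
  have dQ := dat_Q hn h hB hG
  set y := (2 * Real.pi) • ξ with hy
  set c : ℤ → ℂ := fourierCoeff (fun t => sft (G t) ξ) with hcdef
  have hnc : ∀ t, ‖conj (ee t)‖ = 1 := fun t => by rw [RCLike.norm_conj, norm_ee]
  have h1 : ∀ t, HasSum (fun k : ℕ => c (k : ℤ) • (fourier (k : ℤ) t : ℂ)) (AA P (ee t) y) := by
    intro t
    have h2 := (term_summable hn P dP.harm _ dP.bd (ee t) (norm_ee t) y).hasSum
    refine hs_congr h2 fun k => ?_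
    rw [hcdef]
    rw [coefP h hB ξ k, ee_pow, smul_eq_mul]
  have h2 : ∀ t, HasSum (fun k : ℕ => c (-((k : ℤ) + 1)) • (fourier (-((k : ℤ) + 1)) t : ℂ))
      (conj (ee t) ^ s * AA (Qt s Q) (conj (ee t)) y) := by
    intro t
    set d : ℕ → ℂ := fun m => if 0 < m then c (-(m : ℤ)) * conj (ee t) ^ m else 0 with hd
    have h3 : HasSum (fun k => d (k + s)) (conj (ee t) ^ s * AA (Qt s Q) (conj (ee t)) y) := by
      have h4 := ((term_summable hn (Qt s Q) dQ.harm _ dQ.bd (conj (ee t)) (hnc t) y).hasSum).mul_left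
        (conj (ee t) ^ s)
      refine hs_congr h4 fun k => ?_
      rw [hd]
      simp only
      unfold Qt oi
      rw [T_C]
      by_cases h5 : 0 < k + s
      · rw [if_pos h5, if_pos h5, add_comm k s, hcdef, coefQ h hB ξ k, pow_add]
        ring
      · rw [if_neg h5, if_neg h5]
        ring
    have h5 : ∑ i ∈ Finset.range s, d i = 0 := by
      refine Finset.sum_eq_zero fun i hi => ?_
      rw [hd]
      simp only
      split_ifs with h6
      · rw [hcdef, coef0 h hB ξ i h6 (Finset.mem_range.1 hi), zero_mul]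
      · rfl
    have h6 : HasSum d (conj (ee t) ^ s * AA (Qt s Q) (conj (ee t)) y) := by
      refine (hasSum_nat_add_iff' s).1 ?_
      rw [h5, sub_zero]
      exact h3
    have h7 := (hasSum_nat_add_iff' 1).2 h6
    have h8 : ∑ i ∈ Finset.range 1, d i = 0 := by
      rw [Finset.sum_range_one, hd]
      simp
    rw [h8, sub_zero] at h7
    refine hs_congr h7 fun k => ?_
    rw [hd]
    simp only
    rw [if_pos (Nat.succ_pos k), ee_conj_pow, smul_eq_mul]
    push_cast
    rfl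
  have h3 : ∀ t, HasSum (fun j : ℤ => c j • (fourier j t : ℂ)) (AA P (ee t) y +
      conj (ee t) ^ s * AA (Qt s Q) (conj (ee t)) y) := fun t =>
    HasSum.of_nat_of_neg_add_one (h1 t) (h2 t)
  have hsum : Summable c := by
    have h4 := (h3 0).summable
    refine (summable_congr fun j => ?_).1 h4
    rw [fourier_eval_zero, smul_eq_mul, mul_one]
  have h5 := has_pointwise_sum_fourier_series_of_summable (f := ⟨fun t => sft (G t) ξ, hc⟩)
    (by exact hsum) t
  exact (h5.unique (h3 t))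

theorem F_le (hn : 2 ≤ n) {s : ℕ} {G : UnitAddCircle → sphere (0 : E n) 1 → ℂ}
    {P Q : ℕ → MvPolynomial (Fin n) ℂ} (h : Fam s G P Q) (hB : G4 G ≠ ⊤) (ξ : E n)
    (hc : Continuous fun t => sft (G t) ξ) (p : ℝ) (hp : 1 ≤ p) (t : UnitAddCircle) :
    ‖sft (G t) ξ‖ₑ ^ p ≤ 2 ^ (p - 1) * (‖AA P (ee t) ((2 * Real.pi) • ξ)‖ₑ ^ p +
      ‖AA (Qt s Q) (ee (-t)) ((2 * Real.pi) • ξ)‖ₑ ^ p) := by
  rw [F_eq hn h hB ξ hc t, ee_neg]
  have h1 : ‖AA P (ee t) ((2 * Real.pi) • ξ) +
      conj (ee t) ^ s * AA (Qt s Q) (conj (ee t)) ((2 * Real.pi) • ξ)‖ₑ ≤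
      ‖AA P (ee t) ((2 * Real.pi) • ξ)‖ₑ + ‖AA (Qt s Q) (conj (ee t)) ((2 * Real.pi) • ξ)‖ₑ := by
    refine (enorm_add_le _ _).trans ?_
    gcongr
    rw [enorm_mul]
    have : ‖conj (ee t) ^ s‖ₑ = 1 := by
      rw [← ofReal_norm, norm_pow, RCLike.norm_conj, norm_ee, one_pow, ENNReal.ofReal_one]
    rw [this, one_mul]
  exact (ENNReal.rpow_le_rpow h1 (by linarith)).trans
    (ENNReal.rpow_add_le_mul_rpow_add_rpow _ _ hp)

end Pool.Agent.Helper969.EX
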