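import Mathlib
import Pool.Agent.Helper969.HW.E2
import Pool.Agent.Helper969.EX.X7
set_option autoImplicit false

/-! The shell estimate for families. -/

namespace Pool.Agent.Helper969.EX

open MeasureTheory Measure Set Metric Complex MvPolynomial Filter
open Pool.Agent.H789R2.FR (E sg sg_finite sg_ae sg_inv T polar)
open Pool.Agent.Y251.HR (sig sft sft_eq scale_int shell shell_meas)
open Pool.Agent.Helper969.HW hiding hm
open scoped RealInnerProductSpace ENNReal ComplexConjugate Topology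

variable {n : ℕ}

/-- scaled shell -/
def shp (n : ℕ) (R : ℝ) : Set (E n) := {ξ | (2 * Real.pi) • ξ ∈ shell n R}

theorem shp_meas (R : ℝ) : MeasurableSet (shp n R) :=
  (measurable_const_smul (2 * Real.pi)) (shell_meas R)

theorem scale_shell (R : ℝ) (g : E n → ℝ≥0∞) (hg : Measurable g) :
    ∫⁻ ξ in shp n R, g ((2 * Real.pi) • ξ) ≤ ∫⁻ x in shell n R, g x := by
  rw [← lintegral_indicator (shp_meas R), ← lintegral_indicator (shell_meas R)]
  have e : ∀ ξ, (shp n R).indicator (fun ξ => g ((2 * Real.pi) • ξ)) ξ =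
      (shell n R).indicator g ((2 * Real.pi) • ξ) := by
    intro ξ
    by_cases h : ξ ∈ shp n R
    · have h' : (2 * Real.pi) • ξ ∈ shell n R := h
      rw [indicator_of_mem h, indicator_of_mem h']
    · have h' : (2 * Real.pi) • ξ ∉ shell n R := h
      rw [indicator_of_notMem h, indicator_of_notMem h']
  simp_rw [e]
  rw [scale_int _ (hg.indicator (shell_meas R))]
  have h5 : ENNReal.ofReal ((2 * Real.pi) ^ n)⁻¹ ≤ 1 := by
    rw [ENNReal.ofReal_le_one]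
    apply inv_le_one_of_one_le₀
    apply one_le_pow₀
    linarith [Real.pi_gt_three]
  calc _ ≤ 1 * ∫⁻ z, (shell n R).indicator g z := by gcongr
    _ = _ := one_mul _

theorem G1_le {G : UnitAddCircle → sphere (0 : E n) 1 → ℂ} (hGm : Measurable (Function.uncurry G)) :
    G1 G ≤ (sig n univ) ^ (3 / 4 : ℝ) * (G4 G) ^ (1 / 4 : ℝ) := by
  have h := ENNReal.lintegral_mul_norm_pow_le (μ := hm.prod (sig n)) (f := fun _ => (1 : ℝ≥0∞))
    (g := fun q => ‖Function.uncurry G q‖ₑ ^ 4) aemeasurable_const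
    (hGm.enorm.pow_const 4).aemeasurable
    (by norm_num : (0 : ℝ) ≤ 3 / 4) (by norm_num : (0 : ℝ) ≤ 1 / 4) (by norm_num)
  simp only [ENNReal.one_rpow, one_mul, lintegral_const] at h
  have e1 : ∀ q : UnitAddCircle × sphere (0 : E n) 1, (‖Function.uncurry G q‖ₑ ^ 4) ^ (1 / 4 : ℝ) =
      ‖Function.uncurry G q‖ₑ := by
    intro q
    rw [← ENNReal.rpow_natCast, ← ENNReal.rpow_mul]
    norm_num
  simp_rw [e1] at h
  rw [lintegral_prod _ hGm.enorm.aemeasurable, lintegral_prod _ (hGm.enorm.pow_const 4).aemeasurable,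
    ← univ_prod_univ, Measure.prod_prod, measure_univ, one_mul] at h
  unfold G1 G4
  rw [← lintegral_lintegral_swap (μ := hm) (ν := sig n) (f := fun t x => ‖G t x‖ₑ)
    hGm.enorm.aemeasurable]
  exact h

theorem G1_pow {G : UnitAddCircle → sphere (0 : E n) 1 → ℂ} (hGm : Measurable (Function.uncurry G))
    (p : ℝ) (hp : 0 ≤ p) :
    G1 G ^ p ≤ (sig n univ) ^ (3 / 4 * p) * (G4 G) ^ (p / 4) := by
  refine (ENNReal.rpow_le_rpow (G1_le hGm) hp).trans (le_of_eq ?_)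
  rw [ENNReal.mul_rpow_of_nonneg _ _ hp, ← ENNReal.rpow_mul, ← ENNReal.rpow_mul]
  congr 2
  ring

theorem AA_slice (hn : 2 ≤ n) (P : ℕ → MvPolynomial (Fin n) ℂ) (hP : ∀ k, Harm k (P k)) (L : ℝ)
    (hL : ∀ k, N1 (P k) ≤ L) (p : ℝ) (t : UnitAddCircle) : Measurable fun x => ‖AA P (ee t) x‖ₑ ^ p := by
  have h := ((AA_meas hn P hP L hL).enorm.pow_const p).comp (measurable_prodMk_left (x := t))
  exact h

/-- **one shell** -/
theorem fam_shell (n : ℕ) (hn : 2 ≤ n) (p : ℝ) (hp2 : 2 < p) (hp4 : p < 4) (δ : ℝ) (hδ : 0 < δ)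
    (hδ1 : δ ≤ 1) : ∃ C : ℝ≥0∞, C ≠ ⊤ ∧
    ∀ (s : ℕ) (G : UnitAddCircle → sphere (0 : E n) 1 → ℂ), Measurable (Function.uncurry G) →
    Wave s G → G4 G ≠ ⊤ → (∀ ξ, Continuous fun t => sft (G t) ξ) →
    ∀ (μ : Measure UnitAddCircle) [IsFiniteMeasure μ] (R : ℝ), 1 ≤ R →
    ∀ m : ℝ≥0∞, (∀ t, μ (closedBall t (1 / R)) ≤ m) →
    ∫⁻ t, (∫⁻ ξ in shp n R, ‖sft (G t) ξ‖ₑ ^ p) ∂μ ≤
      C * (ENNReal.ofReal (R ^ (1 + ((4 - p) / 2 + (δ - ((n : ℝ) - 2)) * ((p - 2) / 2)))) * m) *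
        (G4 G) ^ (p / 4) := by
  obtain ⟨C, hC, h⟩ := shell_mu n hn p hp2 hp4 δ hδ hδ1
  set e := (4 - p) / 2 + (δ - ((n : ℝ) - 2)) * ((p - 2) / 2) with he
  have hp0 : 0 ≤ p := by linarith
  set K : ℝ≥0∞ := ENNReal.ofReal 6152 ^ (p / 4) + (sig n univ) ^ (3 / 4 * p) with hK
  have hKt : K ≠ ⊤ := ENNReal.add_ne_top.2
    ⟨ENNReal.rpow_ne_top_of_nonneg (by linarith) ENNReal.ofReal_ne_top,
      ENNReal.rpow_ne_top_of_nonneg (by linarith) (measure_ne_top _ _)⟩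
  refine ⟨2 ^ (p - 1) * (2 * (ENNReal.ofReal C * K)), ?_, ?_⟩
  · exact ENNReal.mul_ne_top (two_rpow_top _) (ENNReal.mul_ne_top (by norm_num)
      (ENNReal.mul_ne_top ENNReal.ofReal_ne_top hKt))
  intro s G hGm hW hB hc μ _ R hR m hμ
  have hR0 : 0 < R := by linarith
  obtain ⟨P, Q, hF⟩ := fam_of s G hGm hW
  have hG := G1_top hGm hB
  have dP := dat_P hn hF hB hG
  have dQ := dat_Q hn hF hB hG
  set B := ENNReal.ofReal 6152 * G4 G with hBdef
  have hend : B ^ (p / 4) + ENNReal.ofReal (G1 G).toReal ^ p ≤ K * (G4 G) ^ (p / 4) := by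
    rw [hBdef, ENNReal.ofReal_toReal hG, ENNReal.mul_rpow_of_nonneg _ _ (by linarith), hK, add_mul]
    gcongr
    exact G1_pow hGm p hp0
  -- first part
  have a1 := h P _ B _ dP μ R hR m hμ
  -- second part
  set μ' : Measure UnitAddCircle := μ.map (fun t => -t) with hμ'
  have hfin' : IsFiniteMeasure μ' := Measure.isFiniteMeasure_map μ _
  have hμ'm : ∀ t, μ' (closedBall t (1 / R)) ≤ m := by
    intro t
    rw [hμ', Measure.map_apply measurable_neg measurableSet_closedBall]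
    have e1 : (fun t : UnitAddCircle => -t) ⁻¹' closedBall t (1 / R) = closedBall (-t) (1 / R) := by
      ext u
      rw [mem_preimage, mem_closedBall, mem_closedBall, dist_eq_norm, dist_eq_norm, ← norm_neg]
      congr! 2
      abel
    rw [e1]
    exact hμ _
  have a2 := h (Qt s Q) _ B _ dQ μ' R hR m hμ'm
  have hQm : Measurable fun t => ∫⁻ x in shell n R, ‖AA (Qt s Q) (ee t) x‖ₑ ^ p :=
    ((AA_meas hn _ dQ.harm _ dQ.bd).enorm.pow_const p).lintegral_prod_right'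
      (ν := (volume : Measure (E n)).restrict (shell n R))
  have hPm : Measurable fun t => ∫⁻ x in shell n R, ‖AA P (ee t) x‖ₑ ^ p :=
    ((AA_meas hn _ dP.harm _ dP.bd).enorm.pow_const p).lintegral_prod_right'
      (ν := (volume : Measure (E n)).restrict (shell n R))
  rw [hμ', lintegral_map hQm measurable_neg] at a2
  have hpt : ∀ t, ∫⁻ ξ in shp n R, ‖sft (G t) ξ‖ₑ ^ p ≤ 2 ^ (p - 1) *
      ((∫⁻ x in shell n R, ‖AA P (ee t) x‖ₑ ^ p) +
        ∫⁻ x in shell n R, ‖AA (Qt s Q) (ee (-t)) x‖ₑ ^ p) := by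
    intro t
    have m1 := AA_slice hn P dP.harm _ dP.bd p t
    have m2 := AA_slice hn (Qt s Q) dQ.harm _ dQ.bd p (-t)
    calc ∫⁻ ξ in shp n R, ‖sft (G t) ξ‖ₑ ^ p ≤ ∫⁻ ξ in shp n R, 2 ^ (p - 1) *
        (‖AA P (ee t) ((2 * Real.pi) • ξ)‖ₑ ^ p +
          ‖AA (Qt s Q) (ee (-t)) ((2 * Real.pi) • ξ)‖ₑ ^ p) :=
          lintegral_mono fun ξ => F_le hn hF hB ξ (hc ξ) p (by linarith) t
      _ = 2 ^ (p - 1) * ((∫⁻ ξ in shp n R, ‖AA P (ee t) ((2 * Real.pi) • ξ)‖ₑ ^ p) +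
          ∫⁻ ξ in shp n R, ‖AA (Qt s Q) (ee (-t)) ((2 * Real.pi) • ξ)‖ₑ ^ p) := by
          have m1' : Measurable fun ξ : E n => ‖AA P (ee t) ((2 * Real.pi) • ξ)‖ₑ ^ p :=
            m1.comp (measurable_const_smul _)
          rw [lintegral_const_mul' _ _ (two_rpow_top _), lintegral_add_left m1']
      _ ≤ _ := mul_le_mul' le_rfl (add_le_add (scale_shell R _ m1) (scale_shell R _ m2))
  have hRe : 0 ≤ R ^ (1 + e) := by positivity
  calc ∫⁻ t, (∫⁻ ξ in shp n R, ‖sft (G t) ξ‖ₑ ^ p) ∂μ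
      ≤ ∫⁻ t, 2 ^ (p - 1) * ((∫⁻ x in shell n R, ‖AA P (ee t) x‖ₑ ^ p) +
        ∫⁻ x in shell n R, ‖AA (Qt s Q) (ee (-t)) x‖ₑ ^ p) ∂μ := lintegral_mono hpt
    _ = 2 ^ (p - 1) * ((∫⁻ t, (∫⁻ x in shell n R, ‖AA P (ee t) x‖ₑ ^ p) ∂μ) +
        ∫⁻ t, (∫⁻ x in shell n R, ‖AA (Qt s Q) (ee (-t)) x‖ₑ ^ p) ∂μ) := by
        rw [lintegral_const_mul' _ _ (two_rpow_top _), lintegral_add_left hPm]
    _ ≤ 2 ^ (p - 1) * (ENNReal.ofReal (C * R ^ (1 + e)) * m * (K * (G4 G) ^ (p / 4)) +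
        ENNReal.ofReal (C * R ^ (1 + e)) * m * (K * (G4 G) ^ (p / 4))) := by
        gcongr
        · exact a1.trans (by gcongr)
        · exact a2.trans (by gcongr)
    _ = _ := by
        rw [ENNReal.ofReal_mul hC.le]
        ring

end Pool.Agent.Helper969.EX
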