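import Mathlib
import Pool.Agent.Helper969.HW.F8
import Pool.Agent.Helper969.EX.X8
set_option autoImplicit false

/-! Sum over the shells, Frostman measures of times. -/

namespace Pool.Agent.Helper969.EX

open MeasureTheory Measure Set Metric Complex MvPolynomial Filter
open Pool.Agent.H789R2.FR (E sg sg_finite sg_ae sg_inv T polar)
open Pool.Agent.Y251.HR (sig sft sft_eq scale_int shell shell_meas)
open Pool.Agent.Helper969.HW hiding hm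
open scoped RealInnerProductSpace ENNReal ComplexConjugate Topology

variable {n : ℕ}

theorem AA_le (hn : 2 ≤ n) (P : ℕ → MvPolynomial (Fin n) ℂ) (hP : ∀ k, Harm k (P k)) (L : ℝ)
    (hL : ∀ k, N1 (P k) ≤ L) (z : ℂ) (hz : ‖z‖ = 1) (x : E n) :
    ‖AA P z x‖ ≤ Real.exp ‖x‖ * (Real.exp ‖x‖ * L) := by
  have h1 := (term_summable hn P hP L hL z hz x).hasSum
  have hexp : HasSum (fun i : ℕ => ‖x‖ ^ i / (i.factorial : ℝ)) (Real.exp ‖x‖) := by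
    rw [Real.exp_eq_exp_ℝ]
    exact NormedSpace.expSeries_div_hasSum_exp ‖x‖
  exact h1.norm_le_of_bounded (hexp.mul_right (Real.exp ‖x‖ * L)) (term_le hn P hP L hL z hz x)

/-- the central ball -/
def bl (n : ℕ) : Set (E n) := {ξ | ‖(2 * Real.pi) • ξ‖ ≤ 1}

theorem bl_meas : MeasurableSet (bl n) :=
  measurableSet_le (measurable_const_smul (2 * Real.pi)).norm measurable_const

theorem bl_sub : bl n ⊆ closedBall (0 : E n) 1 := by
  intro ξ hξ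
  have h1 : ‖(2 * Real.pi) • ξ‖ ≤ 1 := hξ
  rw [norm_smul, Real.norm_of_nonneg (by positivity)] at h1
  rw [mem_closedBall_zero_iff]
  nlinarith [Real.pi_gt_three, norm_nonneg ξ]

noncomputable def Kb (n : ℕ) (p : ℝ) : ℝ≥0∞ :=
  2 ^ (p - 1) * (2 * ENNReal.ofReal (Real.exp 2) ^ p) * (volume : Measure (E n)) (closedBall 0 1)

theorem Kb_top (p : ℝ) (hp : 0 ≤ p) : Kb n p ≠ ⊤ := by
  unfold Kb
  exact ENNReal.mul_ne_top (ENNReal.mul_ne_top (two_rpow_top _) (ENNReal.mul_ne_top (by norm_num)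
    (ENNReal.rpow_ne_top_of_nonneg hp ENNReal.ofReal_ne_top))) measure_closedBall_lt_top.ne

theorem ball_part (hn : 2 ≤ n) {s : ℕ} {G : UnitAddCircle → sphere (0 : E n) 1 → ℂ}
    {P Q : ℕ → MvPolynomial (Fin n) ℂ} (h : Fam s G P Q) (hB : G4 G ≠ ⊤)
    (hc : ∀ ξ, Continuous fun t => sft (G t) ξ) (p : ℝ) (hp : 1 ≤ p) (t : UnitAddCircle) :
    ∫⁻ ξ in bl n, ‖sft (G t) ξ‖ₑ ^ p ≤ Kb n p * G1 G ^ p := by
  have hG := G1_top h.meas hB
  have dP := dat_P hn h hB hG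
  have dQ := dat_Q hn h hB hG
  have hp0 : 0 ≤ p := by linarith
  set L := (G1 G).toReal with hL
  have hL0 : 0 ≤ L := ENNReal.toReal_nonneg
  have hb : ∀ (P' : ℕ → MvPolynomial (Fin n) ℂ), (∀ k, Harm k (P' k)) → (∀ k, N1 (P' k) ≤ L) →
      ∀ (z : ℂ), ‖z‖ = 1 → ∀ x : E n, ‖x‖ ≤ 1 → ‖AA P' z x‖ₑ ^ p ≤
      ENNReal.ofReal (Real.exp 2) ^ p * G1 G ^ p := by
    intro P' hP' hP'L z hz x hx
    rw [← ENNReal.mul_rpow_of_nonneg _ _ hp0]
    refine ENNReal.rpow_le_rpow ?_ hp0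
    rw [← ofReal_norm, ← ENNReal.ofReal_toReal hG, ← ENNReal.ofReal_mul (Real.exp_pos 2).le]
    apply ENNReal.ofReal_le_ofReal
    refine (AA_le hn P' hP' L hP'L z hz x).trans ?_
    rw [← mul_assoc, ← Real.exp_add]
    have h1 : Real.exp (‖x‖ + ‖x‖) ≤ Real.exp 2 := Real.exp_le_exp.2 (by linarith)
    gcongr
  calc ∫⁻ ξ in bl n, ‖sft (G t) ξ‖ₑ ^ p
      ≤ ∫⁻ _ξ in bl n, 2 ^ (p - 1) * (2 * ENNReal.ofReal (Real.exp 2) ^ p) * G1 G ^ p := by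
        refine setLIntegral_mono' bl_meas fun ξ hξ => ?_
        refine (F_le hn h hB ξ (hc ξ) p hp t).trans ?_
        have h1 := hb P dP.harm dP.bd (ee t) (norm_ee t) _ hξ
        have h2 := hb (Qt s Q) dQ.harm dQ.bd (ee (-t)) (norm_ee (-t)) _ hξ
        calc _ ≤ 2 ^ (p - 1) * (ENNReal.ofReal (Real.exp 2) ^ p * G1 G ^ p +
              ENNReal.ofReal (Real.exp 2) ^ p * G1 G ^ p) :=
              mul_le_mul' le_rfl (add_le_add h1 h2)
          _ = _ := by ring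
    _ = 2 ^ (p - 1) * (2 * ENNReal.ofReal (Real.exp 2) ^ p) * G1 G ^ p * volume (bl n) := by
        rw [lintegral_const, Measure.restrict_apply_univ]
    _ ≤ 2 ^ (p - 1) * (2 * ENNReal.ofReal (Real.exp 2) ^ p) * G1 G ^ p *
        volume (closedBall (0 : E n) 1) := by
        gcongr
        exact bl_sub
    _ = _ := by
        unfold Kb
        ring

theorem cover' : (univ : Set (E n)) ⊆ bl n ∪ ⋃ j : ℕ, shp n ((2 : ℝ) ^ j) := by
  intro ξ _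
  have h := cover (mem_univ ((2 * Real.pi) • ξ))
  rcases h with h | h
  · left
    exact mem_closedBall_zero_iff.1 h
  · right
    rw [mem_iUnion] at h ⊢
    exact h

theorem all_le (f : E n → ℝ≥0∞) : ∫⁻ ξ, f ξ ≤ (∫⁻ ξ in bl n, f ξ) +
    ∑' j : ℕ, ∫⁻ ξ in shp n ((2 : ℝ) ^ j), f ξ := by
  calc ∫⁻ ξ, f ξ = ∫⁻ ξ in univ, f ξ := by rw [setLIntegral_univ]
    _ ≤ ∫⁻ ξ in bl n ∪ ⋃ j : ℕ, shp n ((2 : ℝ) ^ j), f ξ := lintegral_mono_set cover'
    _ ≤ (∫⁻ ξ in bl n, f ξ) + ∫⁻ ξ in ⋃ j : ℕ, shp n ((2 : ℝ) ^ j), f ξ :=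
        lintegral_union_le (μ := volume) f _ _
    _ ≤ _ := by
        gcongr
        exact lintegral_iUnion_le _ _

theorem expo (n : ℕ) (hn : 3 ≤ n) (α p : ℝ) (hp2 : 2 < p) (hp4 : p < 4)
    (hp : n + 1 - α < p * (n - 1) / 2) : ∃ δ : ℝ, 0 < δ ∧ δ ≤ 1 ∧
    1 + ((4 - p) / 2 + (δ - ((n : ℝ) - 2)) * ((p - 2) / 2)) < α := by
  set κ : ℝ := p * (n - 1) / 2 - (n + 1 - α) with hκ
  have hκ0 : 0 < κ := by rw [hκ]; linarith
  refine ⟨min 1 (κ / 2), lt_min one_pos (by linarith), min_le_left _ _, ?_⟩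
  have h2 : min 1 (κ / 2) ≤ κ / 2 := min_le_right _ _
  have h3 : 0 < min 1 (κ / 2) := lt_min one_pos (by linarith)
  have h4 : 1 + ((4 - p) / 2 + (min 1 (κ / 2) - ((n : ℝ) - 2)) * ((p - 2) / 2)) =
      α - κ + min 1 (κ / 2) * ((p - 2) / 2) := by
    rw [hκ]
    ring
  rw [h4]
  have h5 : min 1 (κ / 2) * ((p - 2) / 2) ≤ κ / 2 * 1 :=
    mul_le_mul h2 (by linarith) (by linarith) (by linarith)
  linarith

/-- **Frostman measures** -/
theorem frost (n : ℕ) (hn : 3 ≤ n) (α p : ℝ) (hp2 : 2 < p) (hp4 : p < 4)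
    (hp : n + 1 - α < p * (n - 1) / 2) : ∃ C : ℝ≥0∞, C ≠ ⊤ ∧
    ∀ (s : ℕ) (G : UnitAddCircle → sphere (0 : E n) 1 → ℂ), Measurable (Function.uncurry G) →
    Wave s G → G4 G ≠ ⊤ → (∀ ξ, Continuous fun t => sft (G t) ξ) →
    ∀ (μ : Measure UnitAddCircle) [IsFiniteMeasure μ] (c : ℝ≥0∞),
    (∀ t, ∀ r : ℝ, 0 < r → μ (closedBall t r) ≤ c * ENNReal.ofReal (r ^ α)) →
    ∫⁻ t, (∫⁻ ξ, ‖sft (G t) ξ‖ₑ ^ p) ∂μ ≤ C * c * (G4 G) ^ (p / 4) := by
  obtain ⟨δ, hδ, hδ1, he⟩ := expo n hn α p hp2 hp4 hp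
  obtain ⟨C, hC, h⟩ := fam_shell n (by omega) p hp2 hp4 δ hδ hδ1
  set e := (4 - p) / 2 + (δ - ((n : ℝ) - 2)) * ((p - 2) / 2) with hedef
  have hp0 : 0 ≤ p := by linarith
  set q : ℝ := (2 : ℝ) ^ (1 + e - α) with hq
  have hq1 : q < 1 := Real.rpow_lt_one_of_one_lt_of_neg (by norm_num) (by linarith)
  have hq0 : 0 < q := by positivity
  have hgeo : Summable fun j : ℕ => q ^ j := summable_geometric_of_lt_one hq0.le hq1
  set S : ℝ≥0∞ := ∑' j : ℕ, ENNReal.ofReal (q ^ j) with hS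
  have hSt : S ≠ ⊤ := hgeo.tsum_ofReal_ne_top
  refine ⟨Kb n p * (sig n univ) ^ (3 / 4 * p) + C * S, ?_, ?_⟩
  · exact ENNReal.add_ne_top.2 ⟨ENNReal.mul_ne_top (Kb_top p hp0)
      (ENNReal.rpow_ne_top_of_nonneg (by linarith) (measure_ne_top _ _)), ENNReal.mul_ne_top hC hSt⟩
  intro s G hGm hW hB hc μ _ c hμ
  obtain ⟨P, Q, hF⟩ := fam_of s G hGm hW
  have hmass : μ univ ≤ c := by
    have h1 := hμ 0 1 one_pos
    rw [Real.one_rpow, ENNReal.ofReal_one, mul_one] at h1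
    refine (measure_mono ?_).trans h1
    intro t _
    rw [mem_closedBall, dist_zero_right]
    obtain ⟨y, -, hy1, hy2⟩ := rep t
    rw [hy1]
    linarith
  have hjm := (sft_joint G hGm).enorm.pow_const p
  have hjs : ∀ j : ℕ, Measurable fun t => ∫⁻ ξ in shp n ((2 : ℝ) ^ j), ‖sft (G t) ξ‖ₑ ^ p := fun j =>
    hjm.lintegral_prod_right' (ν := (volume : Measure (E n)).restrict (shp n ((2 : ℝ) ^ j)))
  have hj : ∀ j : ℕ, ∫⁻ t, (∫⁻ ξ in shp n ((2 : ℝ) ^ j), ‖sft (G t) ξ‖ₑ ^ p) ∂μ ≤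
      C * c * (G4 G) ^ (p / 4) * ENNReal.ofReal (q ^ j) := by
    intro j
    have hR : (1 : ℝ) ≤ 2 ^ j := one_le_pow₀ (by norm_num)
    have hR0 : (0 : ℝ) < 2 ^ j := by positivity
    have h1 := h s G hGm hW hB hc μ ((2 : ℝ) ^ j) hR (c * ENNReal.ofReal ((1 / (2 : ℝ) ^ j) ^ α))
      (fun t => hμ t _ (by positivity))
    refine h1.trans (le_of_eq ?_)
    have h2 : q ^ j = ((2 : ℝ) ^ j) ^ (1 + e) * (1 / (2 : ℝ) ^ j) ^ α := by
      rw [hq, ← Real.rpow_natCast ((2 : ℝ) ^ (1 + e - α)), ← Real.rpow_mul (by norm_num),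
        one_div, ← Real.rpow_neg_one ((2 : ℝ) ^ j), ← Real.rpow_natCast 2 j,
        ← Real.rpow_mul (by norm_num), ← Real.rpow_mul (by norm_num), ← Real.rpow_mul (by norm_num),
        ← Real.rpow_add (by norm_num)]
      congr 1
      ring
    rw [h2, ENNReal.ofReal_mul (by positivity)]
    ring
  calc ∫⁻ t, (∫⁻ ξ, ‖sft (G t) ξ‖ₑ ^ p) ∂μ
      ≤ ∫⁻ t, (Kb n p * G1 G ^ p + ∑' j : ℕ, ∫⁻ ξ in shp n ((2 : ℝ) ^ j), ‖sft (G t) ξ‖ₑ ^ p) ∂μ := by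
        refine lintegral_mono fun t => ?_
        refine (all_le _).trans ?_
        gcongr
        exact ball_part (by omega) hF hB hc p (by linarith) t
    _ = Kb n p * G1 G ^ p * μ univ +
        ∑' j : ℕ, ∫⁻ t, (∫⁻ ξ in shp n ((2 : ℝ) ^ j), ‖sft (G t) ξ‖ₑ ^ p) ∂μ := by
        rw [lintegral_add_left measurable_const, lintegral_const,
          lintegral_tsum fun j => (hjs j).aemeasurable]
    _ ≤ Kb n p * ((sig n univ) ^ (3 / 4 * p) * (G4 G) ^ (p / 4)) * c +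
        ∑' j : ℕ, C * c * (G4 G) ^ (p / 4) * ENNReal.ofReal (q ^ j) := by
        gcongr
        · exact G1_pow hGm p hp0
        · exact hj _
    _ = _ := by
        rw [ENNReal.tsum_mul_left]
        ring

end Pool.Agent.Helper969.EX
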