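import Mathlib
import Pool.Agent.Helper969.EX.X9
set_option autoImplicit false

/-! The exceptional times. -/

namespace Pool.Agent.Helper969.EX

open MeasureTheory Measure Set Metric Complex MvPolynomial Filter
open Pool.Agent.H789R2.FR (E sg sg_finite sg_ae sg_inv T polar)
open Pool.Agent.Y251.HR (sig sft sft_eq scale_int shell shell_meas)
open Pool.Agent.Helper969.HW hiding hm
open scoped RealInnerProductSpace ENNReal NNReal ComplexConjugate Topology

variable {n : ℕ}

/-- separated sets of maximal cardinality cover -/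
theorem sep_cover {Y : Type*} [MetricSpace Y] (X : Set Y) (ε : ℝ) (hε : 0 ≤ ε) (M : ℕ)
    (h : ∀ A : Finset Y, (∀ a ∈ A, a ∈ X) → (∀ a ∈ A, ∀ b ∈ A, a ≠ b → ε < dist a b) →
      A.card ≤ M) :
    ∃ A : Finset Y, (∀ a ∈ A, a ∈ X) ∧ (∀ a ∈ A, ∀ b ∈ A, a ≠ b → ε < dist a b) ∧
      ∀ x ∈ X, ∃ a ∈ A, x ∈ closedBall a ε := by
  classical
  by_contra hcon
  push Not at hcon
  have key : ∀ k : ℕ, ∃ A : Finset Y, (∀ a ∈ A, a ∈ X) ∧
      (∀ a ∈ A, ∀ b ∈ A, a ≠ b → ε < dist a b) ∧ A.card = k := by
    intro k
    induction k with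
    | zero => exact ⟨∅, by simp, by simp, by simp⟩
    | succ k ih =>
      obtain ⟨A, h1, h2, h3⟩ := ih
      obtain ⟨x, hx, hxA⟩ := hcon A h1 h2
      have hd : ∀ a ∈ A, ε < dist x a := by
        intro a ha
        have h4 := hxA a ha
        rw [mem_closedBall, not_le] at h4
        exact h4
      have hxn : x ∉ A := by
        intro h4
        have h5 := hd x h4
        rw [dist_self] at h5
        linarith
      refine ⟨insert x A, ?_, ?_, ?_⟩
      · intro a ha
        rcases Finset.mem_insert.1 ha with h4 | h4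
        · rw [h4]; exact hx
        · exact h1 a h4
      · intro a ha b hb hab
        rcases Finset.mem_insert.1 ha with h4 | h4 <;> rcases Finset.mem_insert.1 hb with h5 | h5
        · exact absurd (h4.trans h5.symm) hab
        · rw [h4]; exact hd b h5
        · rw [h5, dist_comm]; exact hd a h4
        · exact h2 a h4 b h5 hab
      · rw [Finset.card_insert_of_notMem hxn, h3]
  obtain ⟨A, h1, h2, h3⟩ := key (M + 1)
  have := h A h1 h2
  omega

/-- counting measure on a finite set -/
noncomputable def cm (A : Finset UnitAddCircle) : Measure UnitAddCircle :=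
  ∑ a ∈ A, Measure.dirac a

instance (A : Finset UnitAddCircle) : IsFiniteMeasure (cm A) := by
  unfold cm
  infer_instance

theorem cm_int (A : Finset UnitAddCircle) (f : UnitAddCircle → ℝ≥0∞) (hf : Measurable f) :
    ∫⁻ t, f t ∂(cm A) = ∑ a ∈ A, f a := by
  unfold cm
  rw [lintegral_finsetSum_measure]
  refine Finset.sum_congr rfl fun a _ => ?_
  exact lintegral_dirac' a hf

theorem cm_ball (A : Finset UnitAddCircle) (R : ℝ) (hR : 0 < R)
    (h : ∀ a ∈ A, ∀ b ∈ A, a ≠ b → 2 / R < dist a b) (t : UnitAddCircle) :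
    cm A (closedBall t (1 / R)) ≤ 1 := by
  classical
  rw [← lintegral_indicator_one measurableSet_closedBall,
    cm_int A _ (measurable_one.indicator measurableSet_closedBall)]
  by_cases hex : ∃ a ∈ A, a ∈ closedBall t (1 / R)
  · obtain ⟨a, ha, hat⟩ := hex
    rw [Finset.sum_eq_single a]
    · rw [indicator_of_mem hat]
      rfl
    · intro b hb hba
      rw [indicator_of_notMem]
      intro hbt
      have h1 := h b hb a ha hba
      have h2 : dist b a ≤ dist b t + dist a t := dist_triangle_right _ _ _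
      rw [mem_closedBall] at hat hbt
      have h3 : 2 / R = 1 / R + 1 / R := by ring
      linarith
    · intro h1
      exact absurd ha h1
  · push Not at hex
    rw [Finset.sum_eq_zero]
    · exact zero_le_one
    · intro a ha
      rw [indicator_of_notMem (hex a ha)]

/-- the weights -/
noncomputable def wj (j : ℕ) : ℝ≥0∞ := ENNReal.ofReal (1 / ((j : ℝ) + 1) ^ 2)

theorem wj_pos (j : ℕ) : wj j ≠ 0 := by
  unfold wj
  rw [Ne, ENNReal.ofReal_eq_zero, not_le]
  positivity

theorem wj_sum : ∑' j, wj j ≠ ⊤ := by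
  unfold wj
  have h : Summable fun j : ℕ => (1 / ((j : ℝ) + 1) ^ 2) := by
    have h1 := (summable_nat_add_iff 1).2 (Real.summable_one_div_nat_pow.2 (by norm_num : 1 < 2))
    refine h1.congr fun j => ?_
    push_cast
    rfl
  exact h.tsum_ofReal_ne_top

/-- if a series of finite terms diverges, its terms are infinitely often large -/
theorem large_terms (a : ℕ → ℝ≥0∞) (ha : ∀ j, a j ≠ ⊤) (hs : ∑' j, a j = ⊤) (J : ℕ) :
    ∃ j, J ≤ j ∧ wj j ≤ a j := by
  by_contra hcon
  push Not at hcon
  have h1 : ∑' j, a j ≤ (∑ j ∈ Finset.range J, a j) + ∑' j, wj j := by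
    have e1 : (∑ j ∈ Finset.range J, a j) + ∑' j, a (j + J) = ∑' j, a j :=
      Summable.sum_add_tsum_nat_add' (f := a) (k := J) ENNReal.summable
    rw [← e1]
    refine add_le_add le_rfl ?_
    calc ∑' j, a (j + J) ≤ ∑' j, wj (j + J) :=
          ENNReal.tsum_le_tsum fun j => (hcon (j + J) (by omega)).le
      _ ≤ ∑' j, wj j := by
          have e2 : (∑ j ∈ Finset.range J, wj j) + ∑' j, wj (j + J) = ∑' j, wj j :=
            Summable.sum_add_tsum_nat_add' (f := wj) (k := J) ENNReal.summable
          rw [← e2]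
          exact le_add_self
  rw [hs, top_le_iff] at h1
  exact ENNReal.add_ne_top.2 ⟨ENNReal.sum_ne_top.2 fun j _ => ha j, wj_sum⟩ h1

end Pool.Agent.Helper969.EX
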