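import Mathlib
import Pool.Agent.Helper969.EX.Y1
set_option autoImplicit false

/-! The dimension of the set of exceptional times. -/

namespace Pool.Agent.Helper969.EX

open MeasureTheory Measure Set Metric Complex MvPolynomial Filter
open Pool.Agent.H789R2.FR (E sg sg_finite sg_ae sg_inv T polar)
open Pool.Agent.Y251.HR (sig sft sft_eq scale_int shell shell_meas)
open Pool.Agent.Helper969.HW hiding hm
open scoped RealInnerProductSpace ENNReal NNReal ComplexConjugate Topology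

variable {n : ℕ}

theorem ediam_ball (a : UnitAddCircle) (r : ℝ) : ediam (closedBall a r) ≤ ENNReal.ofReal (2 * r) := by
  refine ediam_le fun x hx y hy => ?_
  rw [edist_dist]
  apply ENNReal.ofReal_le_ofReal
  rw [mem_closedBall] at hx hy
  have := dist_triangle_right x y a
  linarith

theorem sq_geo (q : ℝ) (hq0 : 0 < q) (hq1 : q < 1) : Summable fun j : ℕ => ((j : ℝ) + 1) ^ 2 * q ^ j := by
  have h1 := summable_pow_mul_geometric_of_norm_lt_one 2 (r := q)
    (by rw [Real.norm_of_nonneg hq0.le]; exact hq1)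
  have h2 := ((summable_nat_add_iff 1).2 h1).mul_right q⁻¹
  refine h2.congr fun j => ?_
  push_cast
  have hq : q ≠ 0 := hq0.ne'
  rw [pow_succ q j]
  field_simp

theorem dim_aux (n : ℕ) (hn : 3 ≤ n) (α : ℝ≥0) (p : ℝ) (hp2 : 2 < p) (hp4 : p < 4)
    (hp : n + 1 - (α : ℝ) < p * (n - 1) / 2) (s : ℕ)
    (G : UnitAddCircle → sphere (0 : E n) 1 → ℂ) (hGm : Measurable (Function.uncurry G))
    (hW : Wave s G) (hB : G4 G ≠ ⊤) (hc : ∀ ξ, Continuous fun t => sft (G t) ξ) :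
    dimH {t : UnitAddCircle | ∫⁻ ξ, ‖sft (G t) ξ‖ₑ ^ p = ⊤} ≤ α := by
  classical
  obtain ⟨δ, hδ, hδ1, he⟩ := expo n hn α p hp2 hp4 hp
  obtain ⟨C, hC, h⟩ := fam_shell n (by omega) p hp2 hp4 δ hδ hδ1
  set e := (4 - p) / 2 + (δ - ((n : ℝ) - 2)) * ((p - 2) / 2) with hedef
  have hp0 : 0 ≤ p := by linarith
  set q : ℝ := (2 : ℝ) ^ (1 + e - α) with hq
  have hq1 : q < 1 := Real.rpow_lt_one_of_one_lt_of_neg (by norm_num) (by linarith)
  have hq0 : 0 < q := by positivity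
  obtain ⟨P, Q, hF⟩ := fam_of s G hGm hW
  have hG := G1_top hGm hB
  set a : ℕ → UnitAddCircle → ℝ≥0∞ := fun j t => ∫⁻ ξ in shp n ((2 : ℝ) ^ j), ‖sft (G t) ξ‖ₑ ^ p
    with ha
  have hjm := (sft_joint G hGm).enorm.pow_const p
  have ham : ∀ j : ℕ, Measurable (a j) := fun j =>
    hjm.lintegral_prod_right' (ν := (volume : Measure (E n)).restrict (shp n ((2 : ℝ) ^ j)))
  set Tj : ℕ → ℝ≥0∞ := fun j => C * (ENNReal.ofReal (((2 : ℝ) ^ j) ^ (1 + e)) * 1) * (G4 G) ^ (p / 4)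
    with hTj
  have hTt : ∀ j, Tj j ≠ ⊤ := by
    intro j
    rw [hTj]
    simp only
    exact ENNReal.mul_ne_top (ENNReal.mul_ne_top hC (ENNReal.mul_ne_top ENNReal.ofReal_ne_top
      ENNReal.one_ne_top)) (ENNReal.rpow_ne_top_of_nonneg (by linarith) hB)
  have hsum : ∀ (j : ℕ) (A : Finset UnitAddCircle),
      (∀ x ∈ A, ∀ y ∈ A, x ≠ y → 2 / (2 : ℝ) ^ j < dist x y) → ∑ t ∈ A, a j t ≤ Tj j := by
    intro j A hA
    have h1 := h s G hGm hW hB hc (cm A) ((2 : ℝ) ^ j) (one_le_pow₀ (by norm_num)) 1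
      (fun t => cm_ball A _ (by positivity) hA t)
    rw [cm_int A _ (ham j)] at h1
    exact h1
  have hat : ∀ j t, a j t ≠ ⊤ := by
    intro j t
    have h1 := hsum j {t} (by
      intro x hx y hy hxy
      rw [Finset.mem_singleton] at hx hy
      exact absurd (hx.trans hy.symm) hxy)
    rw [Finset.sum_singleton] at h1
    exact ne_top_of_le_ne_top (hTt j) h1
  have hcard : ∀ (j : ℕ) (A : Finset UnitAddCircle), (∀ x ∈ A, x ∈ {t | wj j ≤ a j t}) →
      (∀ x ∈ A, ∀ y ∈ A, x ≠ y → 2 / (2 : ℝ) ^ j < dist x y) →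
      (A.card : ℝ≥0∞) * wj j ≤ Tj j := by
    intro j A h1 h2
    refine le_trans ?_ (hsum j A h2)
    rw [← nsmul_eq_mul, ← Finset.sum_const]
    exact Finset.sum_le_sum fun x hx => h1 x hx
  have hcov : ∀ j : ℕ, ∃ A : Finset UnitAddCircle, (A.card : ℝ≥0∞) * wj j ≤ Tj j ∧
      ∀ x, wj j ≤ a j x → ∃ y ∈ A, x ∈ closedBall y (2 / (2 : ℝ) ^ j) := by
    intro j
    have hne : Tj j / wj j ≠ ⊤ := ENNReal.div_ne_top (hTt j) (wj_pos j)
    obtain ⟨A, h1, h2, h3⟩ := sep_cover {t | wj j ≤ a j t} (2 / (2 : ℝ) ^ j) (by positivity)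
      ⌊(Tj j / wj j).toReal⌋₊ (fun A hA1 hA2 => by
        apply Nat.le_floor
        have h4 := hcard j A hA1 hA2
        have h5 : (A.card : ℝ≥0∞) ≤ Tj j / wj j := by
          rw [ENNReal.le_div_iff_mul_le (Or.inl (wj_pos j)) (Or.inl ENNReal.ofReal_ne_top)]
          exact h4
        have h6 := ENNReal.toReal_mono hne h5
        rwa [ENNReal.toReal_natCast] at h6)
    exact ⟨A, hcard j A h1 h2, fun x hx => h3 x hx⟩
  choose A hA1 hA2 using hcov
  refine dimH_le_of_hausdorffMeasure_ne_top ?_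
  have hlim : Tendsto (fun J : ℕ => ENNReal.ofReal (4 / (2 : ℝ) ^ J)) atTop (𝓝 0) := by
    have h1 : Tendsto (fun J : ℕ => (4 : ℝ) * (1 / 2) ^ J) atTop (𝓝 (4 * 0)) :=
      (tendsto_pow_atTop_nhds_zero_of_lt_one (by norm_num) (by norm_num)).const_mul 4
    rw [mul_zero] at h1
    have h2 := ENNReal.tendsto_ofReal h1
    rw [ENNReal.ofReal_zero] at h2
    refine h2.congr fun J => ?_
    congr 1
    rw [one_div, inv_pow]
    ring
  have hH := hausdorffMeasure_le_liminf_tsum (X := UnitAddCircle) (β := ℕ)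
    (ι := fun _ => Σ j : ℕ, {x // x ∈ A j}) (α : ℝ) {t : UnitAddCircle | ∫⁻ ξ, ‖sft (G t) ξ‖ₑ ^ p = ⊤}
    (l := atTop) (fun J => ENNReal.ofReal (4 / (2 : ℝ) ^ J)) hlim
    (fun J i => if J ≤ i.1 then closedBall (i.2 : UnitAddCircle) (2 / (2 : ℝ) ^ i.1) else ∅)
    (Eventually.of_forall fun J i => ?_) (Eventually.of_forall fun J => ?_)
  · refine ne_top_of_le_ne_top
      (b := ∑' j : ℕ, Tj j * (wj j)⁻¹ * ENNReal.ofReal (4 / (2 : ℝ) ^ j) ^ (α : ℝ)) ?_
      (hH.trans (liminf_le_of_frequently_le' (Frequently.of_forall fun J => ?_)))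
    · -- finiteness
      have h1 : ∀ j, Tj j * (wj j)⁻¹ * ENNReal.ofReal (4 / (2 : ℝ) ^ j) ^ (α : ℝ) =
          C * (G4 G) ^ (p / 4) * ENNReal.ofReal ((4 : ℝ) ^ (α : ℝ)) *
            ENNReal.ofReal (((j : ℝ) + 1) ^ 2 * q ^ j) := by
        intro j
        have hw : (wj j)⁻¹ = ENNReal.ofReal (((j : ℝ) + 1) ^ 2) := by
          unfold wj
          rw [← ENNReal.ofReal_inv_of_pos (by positivity), one_div, inv_inv]
        have h2 : q ^ j * (4 : ℝ) ^ (α : ℝ) = ((2 : ℝ) ^ j) ^ (1 + e) * (4 / (2 : ℝ) ^ j) ^ (α : ℝ) := by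
          rw [Real.div_rpow (by norm_num) (by positivity), hq,
            ← Real.rpow_natCast ((2 : ℝ) ^ (1 + e - α)), ← Real.rpow_mul (by norm_num),
            ← Real.rpow_natCast 2 j, ← Real.rpow_mul (by norm_num), ← Real.rpow_mul (by norm_num)]
          have h3 : (2 : ℝ) ^ ((1 + e - α) * (j : ℝ)) =
              (2 : ℝ) ^ ((j : ℝ) * (1 + e)) / (2 : ℝ) ^ ((j : ℝ) * α) := by
            rw [← Real.rpow_sub (by norm_num)]
            congr 1
            ring
          rw [h3]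
          ring
        rw [hw, hTj]
        simp only
        rw [ENNReal.ofReal_rpow_of_nonneg (by positivity) α.coe_nonneg, mul_one]
        have h4 : ENNReal.ofReal (((2 : ℝ) ^ j) ^ (1 + e)) * ENNReal.ofReal ((4 / (2 : ℝ) ^ j) ^ (α : ℝ)) =
            ENNReal.ofReal (q ^ j) * ENNReal.ofReal ((4 : ℝ) ^ (α : ℝ)) := by
          rw [← ENNReal.ofReal_mul (by positivity), ← ENNReal.ofReal_mul (by positivity), h2]
        rw [ENNReal.ofReal_mul (by positivity : (0 : ℝ) ≤ ((j : ℝ) + 1) ^ 2)]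
        calc _ = C * (G4 G) ^ (p / 4) * ENNReal.ofReal (((j : ℝ) + 1) ^ 2) *
              (ENNReal.ofReal (((2 : ℝ) ^ j) ^ (1 + e)) *
                ENNReal.ofReal ((4 / (2 : ℝ) ^ j) ^ (α : ℝ))) := by ring
          _ = _ := by
              rw [h4]
              ring
      simp_rw [h1]
      rw [ENNReal.tsum_mul_left]
      exact ENNReal.mul_ne_top (ENNReal.mul_ne_top (ENNReal.mul_ne_top hC
        (ENNReal.rpow_ne_top_of_nonneg (by linarith) hB)) ENNReal.ofReal_ne_top)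
        (sq_geo q hq0 hq1).tsum_ofReal_ne_top
    · -- the sum
      rw [ENNReal.tsum_sigma']
      refine ENNReal.tsum_le_tsum fun j => ?_
      calc ∑' b : {x // x ∈ A j}, ediam (if J ≤ (⟨j, b⟩ : Σ j : ℕ, {x // x ∈ A j}).1 then
              closedBall ((⟨j, b⟩ : Σ j : ℕ, {x // x ∈ A j}).2 : UnitAddCircle)
                (2 / (2 : ℝ) ^ (⟨j, b⟩ : Σ j : ℕ, {x // x ∈ A j}).1) else ∅) ^ (α : ℝ)
          ≤ ∑' _b : {x // x ∈ A j}, ENNReal.ofReal (4 / (2 : ℝ) ^ j) ^ (α : ℝ) := by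
            refine ENNReal.tsum_le_tsum fun b => ?_
            refine ENNReal.rpow_le_rpow ?_ α.coe_nonneg
            split_ifs
            · refine (ediam_ball _ _).trans (le_of_eq ?_)
              congr 1
              ring
            · rw [ediam_empty]
              exact zero_le
        _ = (A j).card * ENNReal.ofReal (4 / (2 : ℝ) ^ j) ^ (α : ℝ) := by
            rw [tsum_fintype, Finset.sum_const, Finset.card_univ, Fintype.card_coe, nsmul_eq_mul]
        _ ≤ _ := by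
            gcongr
            rw [← div_eq_mul_inv,
              ENNReal.le_div_iff_mul_le (Or.inl (wj_pos j)) (Or.inl ENNReal.ofReal_ne_top)]
            exact hA1 j
  · -- diameters
    split_ifs with h1
    · refine (ediam_ball _ _).trans (ENNReal.ofReal_le_ofReal ?_)
      have h2 : (2 : ℝ) ^ J ≤ 2 ^ i.1 := pow_le_pow_right₀ (by norm_num) h1
      calc 2 * (2 / (2 : ℝ) ^ i.1) = 4 / 2 ^ i.1 := by ring
        _ ≤ 4 / 2 ^ J := by gcongr
    · rw [ediam_empty]
      exact zero_le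
  · -- covering
    intro t ht
    have h1 : ∑' j, a j t = ⊤ := by
      have h2 := all_le (n := n) (fun ξ => ‖sft (G t) ξ‖ₑ ^ p)
      have ht' : ∫⁻ ξ, ‖sft (G t) ξ‖ₑ ^ p = ⊤ := ht
      rw [ht', top_le_iff, ENNReal.add_eq_top] at h2
      rcases h2 with h2 | h2
      · exfalso
        have h3 := ball_part (by omega) hF hB hc p (by linarith) t
        rw [h2, top_le_iff] at h3
        exact ENNReal.mul_ne_top (Kb_top p hp0) (ENNReal.rpow_ne_top_of_nonneg hp0 hG) h3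
      · exact h2
    obtain ⟨j, hj1, hj2⟩ := large_terms (fun j => a j t) (fun j => hat j t) h1 J
    obtain ⟨y, hy1, hy2⟩ := hA2 j t hj2
    rw [mem_iUnion]
    refine ⟨⟨j, ⟨y, hy1⟩⟩, ?_⟩
    simp only
    rw [if_pos hj1]
    exact hy2

/-- **the dimension of the set of exceptional times** -/
theorem dim_exc (n : ℕ) (hn : 3 ≤ n) (p : ℝ) (hp2 : 2 < p) (hp4 : p < 4) (s : ℕ)
    (G : UnitAddCircle → sphere (0 : E n) 1 → ℂ) (hGm : Measurable (Function.uncurry G))
    (hW : Wave s G) (hB : G4 G ≠ ⊤) (hc : ∀ ξ, Continuous fun t => sft (G t) ξ) :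
    dimH {t : UnitAddCircle | ∫⁻ ξ, ‖sft (G t) ξ‖ₑ ^ p = ⊤} ≤
      ENNReal.ofReal (n + 1 - p * (n - 1) / 2) := by
  refine ENNReal.le_of_forall_pos_le_add fun ε hε _ => ?_
  have h1 := dim_aux n hn (Real.toNNReal (n + 1 - p * (n - 1) / 2) + ε) p hp2 hp4 ?_ s G hGm hW hB hc
  · refine h1.trans (le_of_eq ?_)
    rw [ENNReal.coe_add]
    rfl
  · have h2 := Real.le_coe_toNNReal ((n : ℝ) + 1 - p * (n - 1) / 2)
    have h3 : (0 : ℝ) < ε := by exact_mod_cast hε
    push_cast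
    linarith

end Pool.Agent.Helper969.EX
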